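import Pool.Agent.T2h52.SR.Stm

/-!
MP_28724c_co, SignRankGrowth: Gaussian tilting.
-/

set_option autoImplicit false

namespace Pool.Agent.T2h52.SR

open Finset MeasureTheory ProbabilityTheory

section gauss
variable {r : ℕ}

/-- the inner product -/
noncomputable def ip (a b : Fin r → ℝ) : ℝ := ∑ i, a i * b i

/-- the standard Gaussian measure -/
noncomputable abbrev GR (r : ℕ) : Measure (Fin r → ℝ) := Measure.pi fun _ => gaussianReal 0 1

theorem gexp (w : Fin r → ℝ) : Integrable (fun g => Real.exp (ip w g)) (GR r) ∧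
    ∫ g, Real.exp (ip w g) ∂(GR r) = Real.exp (ip w w / 2) := by
  have h1 : ∀ g : Fin r → ℝ, Real.exp (ip w g) = ∏ i, Real.exp (w i * g i) :=
    fun g => Real.exp_sum _ _
  simp_rw [h1]
  constructor
  · exact Integrable.fintype_prod (f := fun i x => Real.exp (w i * x))
      fun i => integrable_exp_mul_gaussianReal (w i)
  · rw [integral_fintype_prod_eq_prod (fun i x => Real.exp (w i * x))]
    have h2 : ∀ i, ∫ x, Real.exp (w i * x) ∂(gaussianReal 0 1) = Real.exp (w i ^ 2 / 2) := by
      intro i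
      have := congrFun (mgf_fun_id_gaussianReal (μ := 0) (v := 1)) (w i)
      simpa [mgf] using this
    simp_rw [h2]
    rw [← Real.exp_sum, ip, Finset.sum_div]
    congr 1
    exact Finset.sum_congr rfl fun i _ => by ring

theorem gexp2 (a b : Fin r → ℝ) (ha : ip a a = 1) (hb : ip b b = 1) (s t c : ℝ) :
    Integrable (fun g => Real.exp (s * ip a g + t * ip b g + c)) (GR r) ∧
    ∫ g, Real.exp (s * ip a g + t * ip b g + c) ∂(GR r) =
      Real.exp ((s ^ 2 + t ^ 2) / 2 + s * t * ip a b + c) := by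
  have h1 : ∀ g : Fin r → ℝ, Real.exp (s * ip a g + t * ip b g + c) =
      Real.exp (ip (fun i => s * a i + t * b i) g) * Real.exp c := by
    intro g
    rw [← Real.exp_add]
    congr 2
    unfold ip
    rw [Finset.mul_sum, Finset.mul_sum, ← Finset.sum_add_distrib]
    exact Finset.sum_congr rfl fun i _ => by ring
  have h2 : ip (fun i => s * a i + t * b i) (fun i => s * a i + t * b i) =
      s ^ 2 + t ^ 2 + 2 * (s * t * ip a b) := by
    have h3 : ip (fun i => s * a i + t * b i) (fun i => s * a i + t * b i) =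
        s ^ 2 * ip a a + t ^ 2 * ip b b + 2 * (s * t * ip a b) := by
      unfold ip
      simp only [Finset.mul_sum]
      rw [← Finset.sum_add_distrib, ← Finset.sum_add_distrib]
      exact Finset.sum_congr rfl fun i _ => by ring
    rw [h3, ha, hb]
    ring
  have h3 := gexp (fun i => s * a i + t * b i)
  simp_rw [h1]
  refine ⟨h3.1.mul_const _, ?_⟩
  rw [integral_mul_const, h3.2, h2, ← Real.exp_add]
  congr 1
  ring

/-- the truncated exponential function -/
noncomputable def tr (l : ℝ) (a g : Fin r → ℝ) : ℝ :=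
  if ip a g ≤ 3 * l then Real.exp (l * ip a g - 3 * l ^ 2) else 0

theorem ip_measurable (a : Fin r → ℝ) : Measurable fun g => ip a g := by
  unfold ip
  fun_prop

theorem tr_measurable (l : ℝ) (a : Fin r → ℝ) : Measurable fun g => tr l a g := by
  unfold tr
  refine Measurable.ite (measurableSet_le (ip_measurable a) measurable_const) ?_ measurable_const
  exact ((ip_measurable a).const_mul l |>.sub_const _).exp

theorem tr_nonneg (l : ℝ) (a g : Fin r → ℝ) : 0 ≤ tr l a g := by
  unfold tr
  split_ifs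
  · exact (Real.exp_pos _).le
  · exact le_rfl

theorem tr_le (l : ℝ) (hl : 0 ≤ l) (a g : Fin r → ℝ) : tr l a g ≤ 1 := by
  unfold tr
  split_ifs with h
  · rw [Real.exp_le_one_iff]
    nlinarith
  · norm_num

theorem tr_integrable (l : ℝ) (hl : 0 ≤ l) (a b : Fin r → ℝ) :
    Integrable (fun g => tr l a g * tr l b g) (GR r) := by
  refine Integrable.of_bound (((tr_measurable l a).mul (tr_measurable l b)).aestronglyMeasurable) 1
    (Filter.Eventually.of_forall fun g => ?_)
  rw [Real.norm_of_nonneg (mul_nonneg (tr_nonneg _ _ _) (tr_nonneg _ _ _))]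
  exact mul_le_one₀ (tr_le l hl a g) (tr_nonneg _ _ _) (tr_le l hl b g)

theorem E_upper (l : ℝ) (hl : 0 ≤ l) (a b : Fin r → ℝ) (ha : ip a a = 1) (hb : ip b b = 1) :
    ∫ g, tr l a g * tr l b g ∂(GR r) ≤ Real.exp (l ^ 2 * ip a b - 5 * l ^ 2) := by
  have h := gexp2 a b ha hb l l (-6 * l ^ 2)
  have h2 : (l ^ 2 + l ^ 2) / 2 + l * l * ip a b + -6 * l ^ 2 = l ^ 2 * ip a b - 5 * l ^ 2 := by
    ring
  rw [h2] at h
  rw [← h.2]
  refine integral_mono (tr_integrable l hl a b) h.1 fun g => ?_
  have hpos := (Real.exp_pos (l * ip a g + l * ip b g + -6 * l ^ 2)).le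
  show tr l a g * tr l b g ≤ Real.exp (l * ip a g + l * ip b g + -6 * l ^ 2)
  unfold tr
  split_ifs with h3 h4
  · rw [← Real.exp_add]
    refine le_of_eq ?_
    congr 1
    ring
  · simpa using hpos
  · simpa using hpos
  · simpa using hpos

theorem E_lower (l : ℝ) (hl : 0 ≤ l) (hl6 : 6 ≤ l ^ 2) (a b : Fin r → ℝ) (ha : ip a a = 1)
    (hb : ip b b = 1) (hab : ip a b ≤ 1) :
    1 / 2 * Real.exp (l ^ 2 * ip a b - 5 * l ^ 2) ≤ ∫ g, tr l a g * tr l b g ∂(GR r) := by
  have h := gexp2 a b ha hb l l (-6 * l ^ 2)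
  have h2 : (l ^ 2 + l ^ 2) / 2 + l * l * ip a b + -6 * l ^ 2 = l ^ 2 * ip a b - 5 * l ^ 2 := by
    ring
  rw [h2] at h
  have h' := gexp2 a b ha hb (2 * l) l (-9 * l ^ 2)
  have h2' : ((2 * l) ^ 2 + l ^ 2) / 2 + 2 * l * l * ip a b + -9 * l ^ 2 =
      2 * (l ^ 2 * ip a b) - 13 / 2 * l ^ 2 := by
    ring
  rw [h2'] at h'
  have h'' := gexp2 a b ha hb l (2 * l) (-9 * l ^ 2)
  have h2'' : (l ^ 2 + (2 * l) ^ 2) / 2 + l * (2 * l) * ip a b + -9 * l ^ 2 =
      2 * (l ^ 2 * ip a b) - 13 / 2 * l ^ 2 := by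
    ring
  rw [h2''] at h''
  have hq : Real.exp (2 * (l ^ 2 * ip a b) - 13 / 2 * l ^ 2) ≤
      1 / 4 * Real.exp (l ^ 2 * ip a b - 5 * l ^ 2) := by
    have h5 : 2 * (l ^ 2 * ip a b) - 13 / 2 * l ^ 2 =
        (l ^ 2 * ip a b - 3 / 2 * l ^ 2) + (l ^ 2 * ip a b - 5 * l ^ 2) := by ring
    rw [h5, Real.exp_add]
    refine mul_le_mul_of_nonneg_right ?_ (Real.exp_pos _).le
    have h6 : l ^ 2 * ip a b - 3 / 2 * l ^ 2 ≤ -3 := by nlinarith
    calc Real.exp (l ^ 2 * ip a b - 3 / 2 * l ^ 2) ≤ Real.exp (-3) := Real.exp_le_exp.mpr h6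
      _ ≤ 1 / 4 := by
        rw [Real.exp_neg, one_div]
        refine inv_anti₀ (by norm_num) ?_
        have := Real.add_one_le_exp (3 : ℝ)
        linarith
  have hint : ∫ g, (Real.exp (l * ip a g + l * ip b g + -6 * l ^ 2) -
      Real.exp (2 * l * ip a g + l * ip b g + -9 * l ^ 2) -
      Real.exp (l * ip a g + 2 * l * ip b g + -9 * l ^ 2)) ∂(GR r) ≤
      ∫ g, tr l a g * tr l b g ∂(GR r) := by
    refine integral_mono ((h.1.sub h'.1).sub h''.1) (tr_integrable l hl a b) fun g => ?_
    show Real.exp (l * ip a g + l * ip b g + -6 * l ^ 2) -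
      Real.exp (2 * l * ip a g + l * ip b g + -9 * l ^ 2) -
      Real.exp (l * ip a g + 2 * l * ip b g + -9 * l ^ 2) ≤ tr l a g * tr l b g
    have hp1 := (Real.exp_pos (2 * l * ip a g + l * ip b g + -9 * l ^ 2)).le
    have hp2 := (Real.exp_pos (l * ip a g + 2 * l * ip b g + -9 * l ^ 2)).le
    have h0 : 0 ≤ tr l a g * tr l b g := mul_nonneg (tr_nonneg _ _ _) (tr_nonneg _ _ _)
    by_cases h3 : ip a g ≤ 3 * l
    · by_cases h4 : ip b g ≤ 3 * l
      · have h5 : tr l a g * tr l b g = Real.exp (l * ip a g + l * ip b g + -6 * l ^ 2) := by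
          unfold tr
          rw [if_pos h3, if_pos h4, ← Real.exp_add]
          congr 1
          ring
        rw [h5]
        linarith
      · have h5 : Real.exp (l * ip a g + l * ip b g + -6 * l ^ 2) ≤
            Real.exp (l * ip a g + 2 * l * ip b g + -9 * l ^ 2) := by
          refine Real.exp_le_exp.mpr ?_
          rw [not_le] at h4
          nlinarith
        linarith
    · have h5 : Real.exp (l * ip a g + l * ip b g + -6 * l ^ 2) ≤
          Real.exp (2 * l * ip a g + l * ip b g + -9 * l ^ 2) := by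
        refine Real.exp_le_exp.mpr ?_
        rw [not_le] at h3
        nlinarith
      linarith
  rw [integral_sub (f := fun g => Real.exp (l * ip a g + l * ip b g + -6 * l ^ 2) -
      Real.exp (2 * l * ip a g + l * ip b g + -9 * l ^ 2)) (h.1.sub h'.1) h''.1,
    integral_sub h.1 h'.1, h.2, h'.2, h''.2] at hint
  linarith

end gauss

theorem rounding {X Y : Type} [Fintype X] [Fintype Y] (c : X → Y → ℝ) (f : X → ℝ) (h : Y → ℝ)
    (hf0 : ∀ x, 0 ≤ f x) (hf1 : ∀ x, f x ≤ 1) (hh0 : ∀ y, 0 ≤ h y) (hh1 : ∀ y, h y ≤ 1) :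
    ∃ (A : Finset X) (B : Finset Y), ∑ x, ∑ y, c x y * (f x * h y) ≤
      ∑ x ∈ A, ∑ y ∈ B, c x y := by
  classical
  refine ⟨univ.filter fun x => 0 < ∑ y, c x y * h y,
    univ.filter fun y => 0 < ∑ x ∈ univ.filter (fun x => 0 < ∑ y, c x y * h y), c x y, ?_⟩
  set A := univ.filter fun x => 0 < ∑ y, c x y * h y with hA
  calc ∑ x, ∑ y, c x y * (f x * h y) = ∑ x, f x * ∑ y, c x y * h y := by
        refine Finset.sum_congr rfl fun x _ => ?_
        rw [Finset.mul_sum]
        exact Finset.sum_congr rfl fun y _ => by ring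
    _ ≤ ∑ x, if 0 < ∑ y, c x y * h y then ∑ y, c x y * h y else 0 := by
        refine Finset.sum_le_sum fun x _ => ?_
        split_ifs with h1
        · exact mul_le_of_le_one_left h1.le (hf1 x)
        · exact mul_nonpos_of_nonneg_of_nonpos (hf0 x) (not_lt.mp h1)
    _ = ∑ x ∈ A, ∑ y, c x y * h y := by rw [hA, Finset.sum_filter]
    _ = ∑ y, h y * ∑ x ∈ A, c x y := by
        rw [Finset.sum_comm]
        refine Finset.sum_congr rfl fun y _ => ?_
        rw [Finset.mul_sum]
        exact Finset.sum_congr rfl fun x _ => by ring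
    _ ≤ ∑ y, if 0 < ∑ x ∈ A, c x y then ∑ x ∈ A, c x y else 0 := by
        refine Finset.sum_le_sum fun y _ => ?_
        split_ifs with h1
        · exact mul_le_of_le_one_left h1.le (hh1 y)
        · exact mul_nonpos_of_nonneg_of_nonpos (hh0 y) (not_lt.mp h1)
    _ = ∑ y ∈ univ.filter (fun y => 0 < ∑ x ∈ A, c x y), ∑ x ∈ A, c x y := by
        rw [Finset.sum_filter]
    _ = _ := Finset.sum_comm

theorem pointwise_sq (s L : ℝ) (hs : 0 ≤ s) (hL : 0 < L) :
    s ^ 2 ≤ 4 * L ^ 2 + 8 * (Real.exp s / Real.exp L) := by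
  have hp : 0 < Real.exp s / Real.exp L := by positivity
  rcases le_or_gt s (2 * L) with h | h
  · nlinarith
  · have h1 := Real.quadratic_le_exp_of_nonneg (by positivity : 0 ≤ s / 2)
    have h2 : Real.exp (s / 2) ≤ Real.exp s / Real.exp L := by
      rw [← Real.exp_sub]
      exact Real.exp_le_exp.mpr (by linarith)
    nlinarith [sq_nonneg L]

theorem t_BOOST : T_BOOST := by
  classical
  intro X Y _ _ _ _ r u v hr hu hv hM hiso η hη0 hη1
  have hX0 : (0 : ℝ) < Fintype.card X := by exact_mod_cast Fintype.card_pos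
  have hY0 : (0 : ℝ) < Fintype.card Y := by exact_mod_cast Fintype.card_pos
  have hrR : (1 : ℝ) ≤ r := by exact_mod_cast hr
  have hr0 : (0 : ℝ) < r := by linarith
  set L : ℝ := Real.log (16 / η) with hL
  have hL1 : 27 / 10 ≤ L := by
    have h1 : Real.log 16 ≤ L := by
      rw [hL]
      refine Real.log_le_log (by norm_num) ?_
      rw [le_div_iff₀ hη0]
      linarith
    have h2 : Real.log 16 = 4 * Real.log 2 := by
      rw [show (16 : ℝ) = 2 ^ 4 by norm_num, Real.log_pow]
      norm_num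
    have h3 := Real.log_two_gt_d9
    linarith
  have hL0 : 0 < L := by linarith
  have hexpL : Real.exp L = 16 / η := Real.exp_log (by positivity)
  set U : ℝ := 17 / 5 * Real.sqrt r * L with hU
  have hsq1 : 1 ≤ Real.sqrt r := by
    rw [Real.one_le_sqrt]
    exact hrR
  have hU6 : 6 ≤ U := by
    rw [hU]
    nlinarith
  have hU0 : 0 < U := by linarith
  set l : ℝ := Real.sqrt U with hl
  have hl0 : 0 ≤ l := Real.sqrt_nonneg _
  have hl2 : l ^ 2 = U := Real.sq_sqrt hU0.le
  -- the inner products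
  set M : X → Y → ℝ := fun x y => ∑ i, u x i * v y i with hMdef
  have huu : ∀ x, ip (u x) (u x) = 1 := by
    intro x
    rw [← hu x, ip]
    exact Finset.sum_congr rfl fun i _ => by ring
  -- (a)
  set S : ℝ := ∑ x, ∑ y, Real.exp (U * |M x y|) with hS
  have hSlow : 16 / η * (Fintype.card X * Fintype.card Y) ≤ S := by
    have h1 : ∀ x y, U ^ 2 * M x y ^ 2 ≤ 4 * L ^ 2 + 8 / (16 / η) * Real.exp (U * |M x y|) := by
      intro x y
      have := pointwise_sq (U * |M x y|) L (by positivity) hL0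
      rw [mul_pow, sq_abs, hexpL] at this
      calc _ ≤ _ := this
        _ = _ := by ring
    have h2 : U ^ 2 * ∑ x, ∑ y, M x y ^ 2 ≤ 4 * L ^ 2 * (Fintype.card X * Fintype.card Y) +
        8 / (16 / η) * S := by
      rw [hS, Finset.mul_sum, Finset.mul_sum]
      simp_rw [Finset.mul_sum]
      calc ∑ x, ∑ y, U ^ 2 * M x y ^ 2 ≤
            ∑ x, ∑ y, (4 * L ^ 2 + 8 / (16 / η) * Real.exp (U * |M x y|)) :=
            Finset.sum_le_sum fun x _ => Finset.sum_le_sum fun y _ => h1 x y
        _ = _ := by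
          simp_rw [Finset.sum_add_distrib]
          congr 1
          simp only [Finset.sum_const, Finset.card_univ, nsmul_eq_mul]
          ring
    have h3 : (Fintype.card X : ℝ) * Fintype.card Y / (2 * r) ≤ ∑ x, ∑ y, M x y ^ 2 := by
      rw [Finset.sum_comm]
      calc (Fintype.card X : ℝ) * Fintype.card Y / (2 * r) =
            ∑ _y : Y, (Fintype.card X : ℝ) / (2 * r) := by
            simp only [Finset.sum_const, Finset.card_univ, nsmul_eq_mul]
            ring
        _ ≤ _ := Finset.sum_le_sum fun y _ => hiso y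
    have h4 : U ^ 2 * ((Fintype.card X : ℝ) * Fintype.card Y / (2 * r)) =
        289 / 50 * L ^ 2 * (Fintype.card X * Fintype.card Y) := by
      have : U ^ 2 = 289 / 25 * r * L ^ 2 := by
        rw [hU, mul_pow, mul_pow, Real.sq_sqrt hr0.le]
        ring
      rw [this]
      field_simp
      ring
    have h5 : U ^ 2 * ((Fintype.card X : ℝ) * Fintype.card Y / (2 * r)) ≤
        U ^ 2 * ∑ x, ∑ y, M x y ^ 2 := by gcongr
    rw [h4] at h5
    have h6 : 0 < (Fintype.card X : ℝ) * Fintype.card Y := by positivity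
    have h7 : 8 * (Fintype.card X * Fintype.card Y : ℝ) ≤ 8 / (16 / η) * S := by
      have h8 : 8 ≤ 89 / 50 * L ^ 2 := by nlinarith
      nlinarith
    have h9 : 8 / (16 / η) * S = 8 * (S / (16 / η)) := by ring
    rw [h9] at h7
    have h10 : (Fintype.card X * Fintype.card Y : ℝ) ≤ S / (16 / η) := by linarith
    rwa [le_div_iff₀ (by positivity), mul_comm] at h10
  -- (b)
  obtain ⟨σ, hσ, hR⟩ : ∃ σ : ℝ, (σ = 1 ∨ σ = -1) ∧ 8 / η * (Fintype.card X * Fintype.card Y) ≤
      ∑ x, ∑ y, if 0 < σ * M x y then Real.exp (U * (σ * M x y)) else 0 := by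
    have h1 : S = (∑ x, ∑ y, if 0 < 1 * M x y then Real.exp (U * (1 * M x y)) else 0) +
        ∑ x, ∑ y, if 0 < -1 * M x y then Real.exp (U * (-1 * M x y)) else 0 := by
      rw [hS, ← Finset.sum_add_distrib]
      refine Finset.sum_congr rfl fun x _ => ?_
      rw [← Finset.sum_add_distrib]
      refine Finset.sum_congr rfl fun y _ => ?_
      rcases lt_or_gt_of_ne (hM x y) with h | h
      · have h' : M x y < 0 := h
        rw [if_neg (by linarith), if_pos (by linarith), abs_of_neg h', zero_add]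
        congr 1
        ring
      · have h' : 0 < M x y := h
        rw [if_pos (by linarith), if_neg (by linarith), abs_of_pos h', add_zero]
        congr 1
        ring
    have h2 : 16 / η * (Fintype.card X * Fintype.card Y) =
        2 * (8 / η * (Fintype.card X * Fintype.card Y)) := by ring
    by_contra hcon
    push Not at hcon
    have h3 := hcon 1 (Or.inl rfl)
    have h4 := hcon (-1) (Or.inr rfl)
    linarith
  have hσ2 : σ * σ = 1 := by rcases hσ with rfl | rfl <;> norm_num
  -- the vectors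
  set v' : Y → Fin r → ℝ := fun y i => σ * v y i with hv'
  have hvv : ∀ y, ip (v' y) (v' y) = 1 := by
    intro y
    rw [← hv y, ip]
    refine Finset.sum_congr rfl fun i _ => ?_
    simp only [hv']
    calc σ * v y i * (σ * v y i) = (σ * σ) * v y i ^ 2 := by ring
      _ = _ := by rw [hσ2, one_mul]
  have huv : ∀ x y, ip (u x) (v' y) = σ * M x y := by
    intro x y
    simp only [ip, hv', hMdef, Finset.mul_sum]
    exact Finset.sum_congr rfl fun i _ => by ring
  have huv1 : ∀ x y, ip (u x) (v' y) ≤ 1 := by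
    intro x y
    have h1 : 0 ≤ ∑ i, (u x i - v' y i) ^ 2 := Finset.sum_nonneg fun i _ => sq_nonneg _
    have h2 : ∑ i, (u x i - v' y i) ^ 2 =
        ip (u x) (u x) + ip (v' y) (v' y) - 2 * ip (u x) (v' y) := by
      unfold ip
      rw [Finset.mul_sum, ← Finset.sum_add_distrib, ← Finset.sum_sub_distrib]
      exact Finset.sum_congr rfl fun i _ => by ring
    rw [h2, huu, hvv] at h1
    linarith
  -- (d)
  set c : X → Y → ℝ := fun x y => if 0 < σ * M x y then η else -1 with hc
  have hEint : ∀ x y, Integrable (fun g => c x y * (tr l (u x) g * tr l (v' y) g)) (GR r) :=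
    fun x y => (tr_integrable l hl0 _ _).const_mul _
  have hterm : ∀ x y, η / 2 * Real.exp (-(5 * U)) *
      (if 0 < σ * M x y then Real.exp (U * (σ * M x y)) else 0) - Real.exp (-(5 * U)) ≤
      c x y * ∫ g, tr l (u x) g * tr l (v' y) g ∂(GR r) := by
    intro x y
    have hup := E_upper l hl0 (u x) (v' y) (huu x) (hvv y)
    have hlo := E_lower l hl0 (by rw [hl2]; exact hU6) (u x) (v' y) (huu x) (hvv y) (huv1 x y)
    rw [huv, hl2] at hup hlo
    have hp5 := Real.exp_pos (-(5 * U))
    simp only [hc]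
    split_ifs with h
    · have h1 : Real.exp (U * (σ * M x y) - 5 * U) =
          Real.exp (-(5 * U)) * Real.exp (U * (σ * M x y)) := by
        rw [← Real.exp_add]
        congr 1
        ring
      rw [h1] at hlo
      have h2 := mul_le_mul_of_nonneg_left hlo hη0.le
      linarith
    · have h1 : Real.exp (U * (σ * M x y) - 5 * U) ≤ Real.exp (-(5 * U)) := by
        refine Real.exp_le_exp.mpr ?_
        rw [not_lt] at h
        nlinarith
      linarith
  have hEsum : 3 * Real.exp (-(5 * U)) * (Fintype.card X * Fintype.card Y) ≤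
      ∫ g, ∑ x, ∑ y, c x y * (tr l (u x) g * tr l (v' y) g) ∂(GR r) := by
    rw [integral_finsetSum _ fun x _ => integrable_finsetSum _ fun y _ => hEint x y]
    simp_rw [integral_finsetSum _ fun y _ => hEint _ y, integral_const_mul]
    refine le_trans ?_ (Finset.sum_le_sum fun x _ => Finset.sum_le_sum fun y _ => hterm x y)
    simp_rw [Finset.sum_sub_distrib, ← Finset.mul_sum]
    simp only [Finset.sum_const, Finset.card_univ, nsmul_eq_mul]
    have h1 : η / 2 * Real.exp (-(5 * U)) * (8 / η * (Fintype.card X * Fintype.card Y)) =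
        4 * Real.exp (-(5 * U)) * (Fintype.card X * Fintype.card Y) := by
      field_simp
      norm_num
    have h2 : η / 2 * Real.exp (-(5 * U)) * (8 / η * (Fintype.card X * Fintype.card Y)) ≤
        η / 2 * Real.exp (-(5 * U)) *
          ∑ x, ∑ y, (if 0 < σ * M x y then Real.exp (U * (σ * M x y)) else 0) := by gcongr
    rw [h1] at h2
    linarith
  have hFint : Integrable (fun g => ∑ x, ∑ y, c x y * (tr l (u x) g * tr l (v' y) g)) (GR r) :=
    integrable_finsetSum _ fun x _ => integrable_finsetSum _ fun y _ => hEint x y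
  obtain ⟨g, hg⟩ := exists_integral_le hFint
  -- (e)
  obtain ⟨A, B, hAB⟩ := rounding c (fun x => tr l (u x) g) (fun y => tr l (v' y) g)
    (fun x => tr_nonneg _ _ _) (fun x => tr_le l hl0 _ _) (fun y => tr_nonneg _ _ _)
    (fun y => tr_le l hl0 _ _)
  have hmain : 3 * Real.exp (-(5 * U)) * (Fintype.card X * Fintype.card Y) ≤
      ∑ x ∈ A, ∑ y ∈ B, c x y := hEsum.trans (hg.trans hAB)
  have hcsum : ∑ x ∈ A, ∑ y ∈ B, c x y =
      η * #((A ×ˢ B).filter fun p => 0 < σ * M p.1 p.2) -
      #((A ×ˢ B).filter fun p => σ * M p.1 p.2 < 0) := by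
    have h1 : ∀ p : X × Y, c p.1 p.2 = η * (if 0 < σ * M p.1 p.2 then (1 : ℝ) else 0) -
        (if σ * M p.1 p.2 < 0 then (1 : ℝ) else 0) := by
      intro p
      have hne : σ * M p.1 p.2 ≠ 0 := by
        refine mul_ne_zero ?_ (hM p.1 p.2)
        rcases hσ with rfl | rfl <;> norm_num
      simp only [hc]
      rcases lt_or_gt_of_ne hne with h | h
      · rw [if_neg (not_lt.mpr h.le), if_neg (not_lt.mpr h.le), if_pos h]
        ring
      · rw [if_pos h, if_pos h, if_neg (not_lt.mpr h.le)]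
        ring
    rw [← Finset.sum_product' A B c]
    simp_rw [h1]
    rw [Finset.sum_sub_distrib, ← Finset.mul_sum, Finset.sum_boole, Finset.sum_boole]
  rw [hcsum] at hmain
  set red : ℝ := ((#((A ×ˢ B).filter fun p => 0 < σ * M p.1 p.2) : ℕ) : ℝ) with hred
  set blue : ℝ := ((#((A ×ˢ B).filter fun p => σ * M p.1 p.2 < 0) : ℕ) : ℝ) with hblue
  have hredle : red ≤ #A * #B := by
    rw [hred]
    have : #((A ×ˢ B).filter fun p => 0 < σ * M p.1 p.2) ≤ #A * #B := by
      rw [← Finset.card_product]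
      exact Finset.card_filter_le _ _
    exact_mod_cast this
  have hred0 : 0 ≤ red := by rw [hred]; positivity
  have hblue0 : 0 ≤ blue := by rw [hblue]; positivity
  have hp : 0 < Real.exp (-(5 * U)) := Real.exp_pos _
  have h5U : 5 * U = 17 * Real.sqrt r * L := by
    rw [hU]
    ring
  rw [← h5U]
  have hbig : Real.exp (-(5 * U)) * (Fintype.card X * Fintype.card Y) ≤ (#A : ℝ) * #B := by
    have h1 : 0 < Real.exp (-(5 * U)) * (Fintype.card X * Fintype.card Y) := by positivity
    have h2 : η * red ≤ red := mul_le_of_le_one_left hred0 hη1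
    linarith
  have hA1 : (#A : ℝ) ≤ Fintype.card X := by exact_mod_cast Finset.card_le_univ A
  have hB1 : (#B : ℝ) ≤ Fintype.card Y := by exact_mod_cast Finset.card_le_univ B
  refine ⟨A, B, σ, hσ, ?_, ?_, ?_⟩
  · have h1 : Real.exp (-(5 * U)) * Fintype.card X * Fintype.card Y ≤ (#A : ℝ) * Fintype.card Y := by
      calc Real.exp (-(5 * U)) * Fintype.card X * Fintype.card Y =
            Real.exp (-(5 * U)) * (Fintype.card X * Fintype.card Y) := by ring
        _ ≤ (#A : ℝ) * #B := hbig
        _ ≤ (#A : ℝ) * Fintype.card Y := by gcongr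
    exact le_of_mul_le_mul_right h1 hY0
  · have h1 : Real.exp (-(5 * U)) * Fintype.card Y * Fintype.card X ≤ (#B : ℝ) * Fintype.card X := by
      calc Real.exp (-(5 * U)) * Fintype.card Y * Fintype.card X =
            Real.exp (-(5 * U)) * (Fintype.card X * Fintype.card Y) := by ring
        _ ≤ (#A : ℝ) * #B := hbig
        _ ≤ (Fintype.card X : ℝ) * #B := by gcongr
        _ = (#B : ℝ) * Fintype.card X := by ring
    exact le_of_mul_le_mul_right h1 hX0
  · have h1 : 0 < 3 * Real.exp (-(5 * U)) * (Fintype.card X * Fintype.card Y) := by positivity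
    have h2 : η * red ≤ η * (#A * #B) := by gcongr
    calc blue ≤ η * (#A * #B) := by linarith
      _ = η * #A * #B := by ring

end Pool.Agent.T2h52.SR
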