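import Pool.Agent.T2h52.SR.Stm

/-! Gaussian linearisation (task GRAM of MP_28724c_co, SignRankGrowth). -/

set_option autoImplicit false

namespace Pool.Agent.T2h52.SR

open Finset MeasureTheory ProbabilityTheory

namespace GramAux

/-- exponential sums over sign vectors -/
theorem sum_exp_sign (m : ℕ) (c : Fin m → ℝ) :
    ∑ z : Fin m → Bool, Real.exp (∑ l, c l * sg (z l)) ≤
      2 ^ m * Real.exp ((∑ l, c l ^ 2) / 2) := by
  have h1 : ∑ z : Fin m → Bool, Real.exp (∑ l, c l * sg (z l)) =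
      ∏ l, ∑ b : Bool, Real.exp (c l * sg b) := by
    rw [Fintype.prod_sum]
    refine Finset.sum_congr rfl fun z _ => ?_
    rw [Real.exp_sum]
  have h2 : ∀ l, ∑ b : Bool, Real.exp (c l * sg b) = 2 * Real.cosh (c l) := by
    intro l
    rw [Fintype.sum_bool, Real.cosh_eq]
    simp only [sg]
    simp
    ring
  have h3 : (2 : ℝ) ^ m * Real.exp ((∑ l, c l ^ 2) / 2) =
      ∏ l : Fin m, (2 * Real.exp (c l ^ 2 / 2)) := by
    rw [Finset.prod_mul_distrib, Finset.prod_const, Finset.card_univ, Fintype.card_fin,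
      ← Real.exp_sum, Finset.sum_div]
  rw [h1, h3]
  refine Finset.prod_le_prod (fun l _ => ?_) fun l _ => ?_
  · rw [h2]
    have := Real.cosh_pos (c l)
    positivity
  · rw [h2]
    exact mul_le_mul_of_nonneg_left (Real.cosh_le_exp_half_sq _) (by norm_num)

theorem int_exp (a : ℝ) : ∫ x, Real.exp (a * x) ∂(gaussianReal 0 1) = Real.exp (a ^ 2 / 2) := by
  have h := congrFun (mgf_fun_id_gaussianReal (μ := 0) (v := 1)) a
  simp only [mgf] at h
  rw [h]
  congr 1
  simp

theorem int_sq : ∫ x, Real.exp (x ^ 2 / 4) ∂(gaussianReal 0 1) = Real.sqrt 2 := by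
  rw [integral_gaussianReal_eq_integral_smul one_ne_zero]
  have h1 : ∀ x : ℝ, gaussianPDFReal 0 1 x • Real.exp (x ^ 2 / 4) =
      (Real.sqrt (2 * Real.pi))⁻¹ * Real.exp (-(1 / 4) * x ^ 2) := by
    intro x
    rw [gaussianPDFReal, smul_eq_mul, NNReal.coe_one, mul_one, mul_one, mul_assoc, ← Real.exp_add]
    congr 2
    ring
  simp only [h1]
  rw [integral_const_mul, integral_gaussian]
  have h2 : Real.pi / (1 / 4) = 2 * (2 * Real.pi) := by ring
  have hp : 0 < Real.sqrt (2 * Real.pi) := Real.sqrt_pos.2 (by positivity)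
  rw [h2, Real.sqrt_mul (by norm_num : (0 : ℝ) ≤ 2) (2 * Real.pi), mul_comm, mul_assoc,
    mul_inv_cancel₀ hp.ne', mul_one]

theorem integrable_sq : Integrable (fun x : ℝ => Real.exp (x ^ 2 / 4)) (gaussianReal 0 1) := by
  by_contra h
  have := integral_undef h
  rw [int_sq] at this
  have h2 : 0 < Real.sqrt 2 := by positivity
  linarith

end GramAux

open GramAux in
theorem t_GRAM : T_GRAM := by
  intro m j w hm hw
  have hm0 : (0 : ℝ) < m := by exact_mod_cast hm
  set μ : Measure (Fin j → ℝ) := Measure.pi fun _ => gaussianReal 0 1 with hμ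
  set t : ℝ := Real.sqrt (2 / (5 * m)) with ht
  have ht2 : t ^ 2 = 2 / (5 * m) := Real.sq_sqrt (by positivity)
  set Y : (Fin m → Bool) → Fin j → ℝ := fun z i => ∑ l, w i l * sg (z l) with hY
  -- linearisation
  have hlin : ∀ z, Real.exp (1 / (5 * m) * ∑ i, (Y z i) ^ 2) =
      ∫ g, Real.exp (t * ∑ i, g i * Y z i) ∂μ := by
    intro z
    have h1 : ∀ g : Fin j → ℝ, Real.exp (t * ∑ i, g i * Y z i) =
        ∏ i, Real.exp ((t * Y z i) * g i) := by
      intro g
      rw [← Real.exp_sum, Finset.mul_sum]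
      congr 1
      refine Finset.sum_congr rfl fun i _ => ?_
      ring
    simp only [h1]
    rw [hμ, integral_fintype_prod_eq_prod (fun i x => Real.exp ((t * Y z i) * x))]
    simp only [int_exp]
    rw [← Real.exp_sum, Finset.mul_sum]
    congr 1
    refine Finset.sum_congr rfl fun i _ => ?_
    rw [mul_pow, ht2]
    ring
  have hint : ∀ z, Integrable (fun g : Fin j → ℝ => Real.exp (t * ∑ i, g i * Y z i)) μ := by
    intro z
    by_contra h
    have h1 := hlin z
    rw [integral_undef h] at h1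
    exact (Real.exp_pos _).ne' h1
  have hpt : ∀ g : Fin j → ℝ, ∑ z, Real.exp (t * ∑ i, g i * Y z i) ≤
      2 ^ m * ∏ i, Real.exp (g i ^ 2 / 4) := by
    intro g
    have h1 : ∀ z, Real.exp (t * ∑ i, g i * Y z i) =
        Real.exp (∑ l, (t * ∑ i, g i * w i l) * sg (z l)) := by
      intro z
      congr 1
      simp only [hY, Finset.mul_sum, Finset.sum_mul]
      rw [Finset.sum_comm]
      refine Finset.sum_congr rfl fun l _ => Finset.sum_congr rfl fun i _ => ?_
      ring
    simp only [h1]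
    refine (sum_exp_sign m fun l => t * ∑ i, g i * w i l).trans ?_
    refine mul_le_mul_of_nonneg_left ?_ (by positivity)
    rw [← Real.exp_sum]
    apply Real.exp_le_exp.2
    simp only [mul_pow]
    rw [← Finset.mul_sum, ht2, ← Finset.sum_div]
    have h2 := hw g
    calc (2 / (5 * (m : ℝ)) * ∑ l, (∑ i, g i * w i l) ^ 2) / 2
        ≤ (2 / (5 * (m : ℝ)) * (5 / 4 * m * ∑ i, g i ^ 2)) / 2 := by
          gcongr
      _ = (∑ i, g i ^ 2) / 4 := by
          field_simp
  have hintR : Integrable (fun g : Fin j → ℝ => 2 ^ m * ∏ i, Real.exp (g i ^ 2 / 4)) μ := by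
    apply Integrable.const_mul
    exact Integrable.fintype_prod (f := fun _ x => Real.exp (x ^ 2 / 4)) fun _ => integrable_sq
  calc ∑ z : Fin m → Bool, Real.exp (1 / (5 * m) * ∑ i, (∑ l, w i l * sg (z l)) ^ 2)
      = ∑ z, ∫ g, Real.exp (t * ∑ i, g i * Y z i) ∂μ := Finset.sum_congr rfl fun z _ => hlin z
    _ = ∫ g, ∑ z, Real.exp (t * ∑ i, g i * Y z i) ∂μ :=
        (integral_finsetSum _ fun z _ => hint z).symm
    _ ≤ ∫ g, 2 ^ m * ∏ i, Real.exp (g i ^ 2 / 4) ∂μ :=
        integral_mono (integrable_finsetSum _ fun z _ => hint z) hintR hpt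
    _ = 2 ^ m * Real.sqrt 2 ^ j := by
        rw [integral_const_mul, hμ,
          integral_fintype_prod_eq_prod (fun (_ : Fin j) x => Real.exp (x ^ 2 / 4))]
        simp only [int_sq]
        rw [Finset.prod_const, Finset.card_univ, Fintype.card_fin]

end Pool.Agent.T2h52.SR
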