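import Pool.Agent.T2h52.SR.Gram

/-! Almost orthogonal sign vectors (task ORTH of MP_28724c_co, SignRankGrowth). -/

set_option autoImplicit false

namespace Pool.Agent.T2h52.SR

open Finset

namespace OrthAux

open GramAux

/-- `cos t ≤ exp (-t²/2)` for `|t| ≤ 1` -/
theorem cos_le (t : ℝ) (ht : |t| ≤ 1) : Real.cos t ≤ Real.exp (-(t ^ 2 / 2)) := by
  have h1 := Real.cos_bound ht
  have h2 := (abs_le.1 h1).2
  have ht2 : t ^ 2 ≤ 1 := by
    rw [← sq_abs]
    nlinarith [abs_nonneg t]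
  have ht0 : 0 ≤ t ^ 2 := sq_nonneg t
  have hu : |-(t ^ 2 / 2)| ≤ 1 := by
    rw [abs_neg, abs_of_nonneg (by positivity)]
    linarith
  have h3 := Real.exp_bound hu (n := 3) (by norm_num)
  have h4 := (abs_le.1 h3).1
  have e1 : |t| ^ 4 = (t ^ 2) ^ 2 := by
    rw [← sq_abs t]
    ring
  rw [e1] at h2
  have e2 : |-(t ^ 2 / 2)| ^ 3 = (t ^ 2) ^ 3 / 8 := by
    rw [abs_neg, abs_of_nonneg (by positivity)]
    ring
  rw [e2] at h4
  norm_num [Finset.sum_range_succ, Nat.factorial] at h4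
  have h5 : (t ^ 2) ^ 3 ≤ (t ^ 2) ^ 2 := by nlinarith [sq_nonneg (t ^ 2)]
  nlinarith [sq_nonneg (t ^ 2)]

/-- coefficients -/
noncomputable def cc : Fin 3 → ℝ := ![1, 1 / 4, 1 / 4]

/-- signs -/
noncomputable def ss : Fin 3 → ℝ := ![0, 1, -1]

theorem one_factor (y : ℝ) : ((1 + Real.cos y / 2 : ℝ) : ℂ) =
    ∑ e : Fin 3, ((cc e : ℝ) : ℂ) * Complex.exp (((ss e * y : ℝ) : ℂ) * Complex.I) := by
  rw [Fin.sum_univ_three]
  simp only [cc, ss, Matrix.cons_val_zero, Matrix.cons_val_one, Matrix.cons_val]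
  push_cast
  rw [Complex.cos]
  simp
  ring

theorem char_sum (m : ℕ) (T : Fin m → ℝ) :
    ∑ z : Fin m → Bool, Complex.exp (((∑ l, T l * sg (z l) : ℝ) : ℂ) * Complex.I) =
      ((∏ l, (2 * Real.cos (T l)) : ℝ) : ℂ) := by
  have h1 : ∑ z : Fin m → Bool, Complex.exp (((∑ l, T l * sg (z l) : ℝ) : ℂ) * Complex.I) =
      ∏ l, ∑ b : Bool, Complex.exp (((T l * sg b : ℝ) : ℂ) * Complex.I) := by
    rw [Fintype.prod_sum]
    refine Finset.sum_congr rfl fun z _ => ?_
    rw [← Complex.exp_sum, Complex.ofReal_sum, Finset.sum_mul]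
  rw [h1, Complex.ofReal_prod]
  refine Finset.prod_congr rfl fun l _ => ?_
  rw [Fintype.sum_bool]
  simp only [sg]
  push_cast
  rw [Complex.cos]
  simp
  ring

theorem prod_expand (m j : ℕ) (w : Fin j → Fin m → ℝ) (κ : ℝ) :
    ∑ z : Fin m → Bool, ∏ i, (1 + Real.cos ((∑ l, w i l * sg (z l)) * κ) / 2) =
      ∑ e : Fin j → Fin 3, (∏ i, cc (e i)) * ∏ l, (2 * Real.cos (∑ i, ss (e i) * w i l * κ)) := by
  apply Complex.ofReal_injective
  rw [Complex.ofReal_sum, Complex.ofReal_sum]
  have h1 : ∀ z : Fin m → Bool,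
      ((∏ i, (1 + Real.cos ((∑ l, w i l * sg (z l)) * κ) / 2) : ℝ) : ℂ) =
      ∑ e : Fin j → Fin 3, ((∏ i, cc (e i) : ℝ) : ℂ) *
        Complex.exp (((∑ l, (∑ i, ss (e i) * w i l * κ) * sg (z l) : ℝ) : ℂ) * Complex.I) := by
    intro z
    rw [Complex.ofReal_prod]
    simp only [one_factor]
    rw [Fintype.prod_sum]
    refine Finset.sum_congr rfl fun e _ => ?_
    rw [Finset.prod_mul_distrib, Complex.ofReal_prod, ← Complex.exp_sum, ← Finset.sum_mul,
      ← Complex.ofReal_sum]
    congr 4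
    simp only [Finset.mul_sum, Finset.sum_mul]
    rw [Finset.sum_comm]
    refine Finset.sum_congr rfl fun l _ => Finset.sum_congr rfl fun i _ => ?_
    ring
  simp only [h1]
  rw [Finset.sum_comm]
  refine Finset.sum_congr rfl fun e _ => ?_
  rw [← Finset.mul_sum, char_sum, Complex.ofReal_mul]

/-- the mean of the product of cosines -/
theorem mean_bound (m j : ℕ) (w : Fin j → Fin m → ℝ) (hm : 1 ≤ m) (hw1 : ∀ i l, |w i l| = 1)
    (hjm : j ^ 2 ≤ m)
    (hlow : ∀ c : Fin j → ℝ, 3 / 4 * m * ∑ i, c i ^ 2 ≤ ∑ l, (∑ i, c i * w i l) ^ 2) :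
    ∑ z : Fin m → Bool, ∏ i, (1 + Real.cos ((∑ l, w i l * sg (z l)) * (Real.sqrt m)⁻¹) / 2) ≤
      2 ^ m * (1 + Real.exp (-(3 / 8)) / 2) ^ j := by
  have hm0 : (0 : ℝ) < m := by exact_mod_cast hm
  have hs0 : 0 < Real.sqrt m := Real.sqrt_pos.2 hm0
  have hs2 : Real.sqrt m ^ 2 = m := Real.sq_sqrt hm0.le
  have hjs : (j : ℝ) ≤ Real.sqrt m := by
    apply Real.le_sqrt_of_sq_le
    exact_mod_cast hjm
  have hcc : ∀ e, 0 ≤ cc e := by
    intro e
    fin_cases e <;> simp [cc]
  have hss : ∀ e, |ss e| ≤ 1 := by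
    intro e
    fin_cases e <;> simp [ss]
  rw [prod_expand]
  have hterm : ∀ e : Fin j → Fin 3, (∏ i, cc (e i)) *
      ∏ l, (2 * Real.cos (∑ i, ss (e i) * w i l * (Real.sqrt m)⁻¹)) ≤
      2 ^ m * ∏ i, (cc (e i) * Real.exp (-(3 / 8 * ss (e i) ^ 2))) := by
    intro e
    have hT : ∀ l, |∑ i, ss (e i) * w i l * (Real.sqrt m)⁻¹| ≤ 1 := by
      intro l
      calc |∑ i, ss (e i) * w i l * (Real.sqrt m)⁻¹|
          ≤ ∑ i, |ss (e i) * w i l * (Real.sqrt m)⁻¹| := Finset.abs_sum_le_sum_abs _ _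
        _ ≤ ∑ _i : Fin j, (Real.sqrt m)⁻¹ := by
            refine Finset.sum_le_sum fun i _ => ?_
            rw [abs_mul, abs_mul, hw1, mul_one, abs_of_pos (inv_pos.2 hs0)]
            have := hss (e i)
            have h2 : 0 ≤ (Real.sqrt m)⁻¹ := by positivity
            nlinarith
        _ = j * (Real.sqrt m)⁻¹ := by simp
        _ ≤ Real.sqrt m * (Real.sqrt m)⁻¹ := by gcongr
        _ = 1 := mul_inv_cancel₀ hs0.ne'
    have h1 : ∏ l, (2 * Real.cos (∑ i, ss (e i) * w i l * (Real.sqrt m)⁻¹)) ≤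
        2 ^ m * Real.exp (-(3 / 8 * ∑ i, ss (e i) ^ 2)) := by
      have h2 : ∏ l, (2 * Real.cos (∑ i, ss (e i) * w i l * (Real.sqrt m)⁻¹)) ≤
          ∏ l, (2 * Real.exp (-((∑ i, ss (e i) * w i l * (Real.sqrt m)⁻¹) ^ 2 / 2))) := by
        refine Finset.prod_le_prod (fun l _ => ?_) fun l _ => ?_
        · have : 0 ≤ Real.cos (∑ i, ss (e i) * w i l * (Real.sqrt m)⁻¹) := by
            apply Real.cos_nonneg_of_mem_Icc
            have h3 := abs_le.1 (hT l)
            have h4 := Real.pi_gt_three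
            constructor <;> linarith
          positivity
        · exact mul_le_mul_of_nonneg_left (cos_le _ (hT l)) (by norm_num)
      refine h2.trans ?_
      rw [Finset.prod_mul_distrib, Finset.prod_const, Finset.card_univ, Fintype.card_fin,
        ← Real.exp_sum]
      refine mul_le_mul_of_nonneg_left ?_ (by positivity)
      apply Real.exp_le_exp.2
      rw [Finset.sum_neg_distrib]
      apply neg_le_neg
      have h3 := hlow fun i => ss (e i)
      have h4 : ∑ l, (∑ i, ss (e i) * w i l * (Real.sqrt m)⁻¹) ^ 2 / 2 =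
          (∑ l, (∑ i, ss (e i) * w i l) ^ 2) / (2 * m) := by
        rw [Finset.sum_div]
        refine Finset.sum_congr rfl fun l _ => ?_
        rw [← Finset.sum_mul, mul_pow, inv_pow, hs2]
        field_simp
      rw [h4, le_div_iff₀ (by positivity)]
      calc (3 / 8 * ∑ i, ss (e i) ^ 2) * (2 * (m : ℝ)) = 3 / 4 * m * ∑ i, ss (e i) ^ 2 := by
            ring
        _ ≤ _ := h3
    calc (∏ i, cc (e i)) * ∏ l, (2 * Real.cos (∑ i, ss (e i) * w i l * (Real.sqrt m)⁻¹))
        ≤ (∏ i, cc (e i)) * (2 ^ m * Real.exp (-(3 / 8 * ∑ i, ss (e i) ^ 2))) :=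
          mul_le_mul_of_nonneg_left h1 (Finset.prod_nonneg fun i _ => hcc _)
      _ = 2 ^ m * ∏ i, (cc (e i) * Real.exp (-(3 / 8 * ss (e i) ^ 2))) := by
          rw [Finset.prod_mul_distrib, ← Real.exp_sum, Finset.sum_neg_distrib, Finset.mul_sum]
          ring
  refine (Finset.sum_le_sum fun e _ => hterm e).trans (le_of_eq ?_)
  rw [← Finset.mul_sum, ← Fintype.prod_sum
    (fun (_ : Fin j) (e : Fin 3) => cc e * Real.exp (-(3 / 8 * ss e ^ 2)))]
  congr 1
  rw [Finset.prod_const, Finset.card_univ, Fintype.card_fin, Fin.sum_univ_three]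
  congr 1
  simp only [cc, ss, Matrix.cons_val_zero, Matrix.cons_val_one, Matrix.cons_val]
  norm_num
  ring

theorem exp_big : 3 ≤ Real.exp (11 / 10) := by
  have h1 : Real.exp (11 / 10) = Real.exp 1 * Real.exp (1 / 10) := by
    rw [← Real.exp_add]
    norm_num
  have h2 := Real.exp_one_gt_d9
  have h3 := Real.quadratic_le_exp_of_nonneg (x := 1 / 10) (by norm_num)
  rw [h1]
  nlinarith

/-- `exp (-(11/20) t) ≤ 1 - t/3` on `[0, 2]` -/
theorem exp_chord (t : ℝ) (h0 : 0 ≤ t) (h2 : t ≤ 2) : Real.exp (-(11 / 20 * t)) ≤ 1 - t / 3 := by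
  have h1 := convexOn_exp.2 (Set.mem_univ (0 : ℝ)) (Set.mem_univ (-(11 / 10) : ℝ))
    (by linarith : 0 ≤ 1 - t / 2) (by linarith : 0 ≤ t / 2) (by ring)
  simp only [smul_eq_mul, mul_zero, zero_add, Real.exp_zero, mul_one] at h1
  have e1 : t / 2 * -(11 / 10) = -(11 / 20 * t) := by ring
  rw [e1] at h1
  have h3 : Real.exp (-(11 / 10)) ≤ 1 / 3 := by
    rw [Real.exp_neg, ← one_div]
    exact one_div_le_one_div_of_le (by norm_num) exp_big
  nlinarith

theorem factor_low (y : ℝ) :
    3 / 2 * Real.exp (-(11 / 20 * (1 - Real.cos y))) ≤ 1 + Real.cos y / 2 := by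
  have h1 := exp_chord (1 - Real.cos y) (by linarith [Real.cos_le_one y])
    (by linarith [Real.neg_one_le_cos y])
  linarith

theorem one_sub_cos_le (y : ℝ) (hy : 0 ≤ y) : 1 - Real.cos y ≤ y := by
  have h1 := Real.one_sub_sq_div_two_le_cos (x := y)
  have h2 := Real.neg_one_le_cos y
  rcases le_total y 2 with h | h
  · nlinarith
  · linarith

theorem base_bound : 1 + Real.exp (-(3 / 8)) / 2 ≤
    (3 / 2 * Real.exp (-(33 / 400))) * Real.exp (-(1 / 125)) := by
  have h1 : Real.exp (-(3 / 8)) ≤ 8 / 11 := by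
    rw [Real.exp_neg, inv_le_comm₀ (Real.exp_pos _) (by norm_num)]
    have := Real.add_one_le_exp (3 / 8 : ℝ)
    norm_num at this ⊢
    linarith
  have h2 : 1 - (33 / 400 + 1 / 125) ≤ Real.exp (-(33 / 400)) * Real.exp (-(1 / 125)) := by
    rw [← Real.exp_add]
    have := Real.add_one_le_exp (-(33 / 400) + -(1 / 125) : ℝ)
    linarith
  rw [mul_assoc]
  nlinarith

end OrthAux

open GramAux OrthAux in
theorem t_ORTH : T_ORTH := by
  classical
  intro m j w hw1 hjm hw
  have hcardall : Fintype.card (Fin m → Bool) = 2 ^ m := by simp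
  rcases Nat.eq_zero_or_pos j with hj0 | hj
  · subst hj0
    have h1 : (#((univ : Finset (Fin m → Bool)).filter fun z =>
        ∀ i, 0 ≤ ∑ l, w i l * sg (z l)) : ℝ) ≤ 2 ^ m := by
      have := Finset.card_le_univ ((univ : Finset (Fin m → Bool)).filter fun z =>
        ∀ i, 0 ≤ ∑ l, w i l * sg (z l))
      rw [hcardall] at this
      exact_mod_cast this
    refine h1.trans ?_
    have h2 : (0 : ℝ) < 2 ^ m := by positivity
    simp only [Nat.cast_zero, neg_zero, zero_div, Real.exp_zero]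
    linarith
  have hm : 1 ≤ m := le_trans (Nat.one_le_pow _ _ hj) hjm
  have hm0 : (0 : ℝ) < m := by exact_mod_cast hm
  have hj0 : (0 : ℝ) < j := by exact_mod_cast hj
  have hs0 : 0 < Real.sqrt m := Real.sqrt_pos.2 hm0
  have hs2 : Real.sqrt m ^ 2 = m := Real.sq_sqrt hm0.le
  have h2m : (0 : ℝ) < 2 ^ m := by positivity
  set Y : (Fin m → Bool) → Fin j → ℝ := fun z i => ∑ l, w i l * sg (z l) with hY
  set S1 := (univ : Finset (Fin m → Bool)).filter fun z =>
    3 / 20 * j * Real.sqrt m ≤ ∑ i, Y z i with hS1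
  set S2 := (univ : Finset (Fin m → Bool)).filter fun z =>
    (∀ i, 0 ≤ Y z i) ∧ ∑ i, Y z i < 3 / 20 * j * Real.sqrt m with hS2
  have hcov : ((univ : Finset (Fin m → Bool)).filter fun z => ∀ i, 0 ≤ Y z i) ⊆ S1 ∪ S2 := by
    intro z hz
    have hz' := (Finset.mem_filter.1 hz).2
    rcases le_or_gt (3 / 20 * j * Real.sqrt m) (∑ i, Y z i) with h | h
    · exact Finset.mem_union_left _ (Finset.mem_filter.2 ⟨Finset.mem_univ _, h⟩)
    · exact Finset.mem_union_right _ (Finset.mem_filter.2 ⟨Finset.mem_univ _, hz', h⟩)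
  -- first part
  have hc1 : (#S1 : ℝ) ≤ 2 ^ m * Real.exp (-(j : ℝ) / 125) := by
    set lam : ℝ := 3 / 25 * (Real.sqrt m)⁻¹ with hlam
    have h1 : (#S1 : ℝ) * Real.exp (9 / 500 * j) ≤ 2 ^ m * Real.exp (9 / 1000 * j) := by
      calc (#S1 : ℝ) * Real.exp (9 / 500 * j) = ∑ _z ∈ S1, Real.exp (9 / 500 * j) := by
            rw [Finset.sum_const, nsmul_eq_mul]
        _ ≤ ∑ z ∈ S1, Real.exp (lam * ∑ i, Y z i) := by
            refine Finset.sum_le_sum fun z hz => ?_
            apply Real.exp_le_exp.2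
            have h2 := (Finset.mem_filter.1 hz).2
            have h3 : lam * (3 / 20 * j * Real.sqrt m) = 9 / 500 * j := by
              rw [hlam]
              field_simp
              ring
            rw [← h3]
            exact mul_le_mul_of_nonneg_left h2 (by positivity)
        _ ≤ ∑ z, Real.exp (lam * ∑ i, Y z i) :=
            Finset.sum_le_sum_of_subset_of_nonneg (Finset.subset_univ _)
              fun _ _ _ => (Real.exp_pos _).le
        _ = ∑ z : Fin m → Bool, Real.exp (∑ l, (lam * ∑ i, w i l) * sg (z l)) := by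
            refine Finset.sum_congr rfl fun z _ => ?_
            congr 1
            simp only [hY, Finset.mul_sum, Finset.sum_mul]
            rw [Finset.sum_comm]
            refine Finset.sum_congr rfl fun l _ => Finset.sum_congr rfl fun i _ => ?_
            ring
        _ ≤ 2 ^ m * Real.exp ((∑ l, (lam * ∑ i, w i l) ^ 2) / 2) :=
            sum_exp_sign m fun l => lam * ∑ i, w i l
        _ ≤ 2 ^ m * Real.exp (9 / 1000 * j) := by
            refine mul_le_mul_of_nonneg_left ?_ h2m.le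
            apply Real.exp_le_exp.2
            have h2 := (hw fun _ => 1).2
            simp only [one_mul, one_pow, Finset.sum_const, Finset.card_univ, Fintype.card_fin,
              nsmul_eq_mul, mul_one] at h2
            simp only [mul_pow]
            rw [← Finset.mul_sum]
            have h3 : lam ^ 2 = 9 / 625 * (m : ℝ)⁻¹ := by
              rw [hlam, mul_pow, inv_pow, hs2]
              norm_num
            rw [h3]
            calc 9 / 625 * (m : ℝ)⁻¹ * (∑ l, (∑ i, w i l) ^ 2) / 2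
                ≤ 9 / 625 * (m : ℝ)⁻¹ * (5 / 4 * m * j) / 2 := by gcongr
              _ = 9 / 1000 * j := by
                  field_simp
                  norm_num
    have h2 : (2 : ℝ) ^ m * Real.exp (9 / 1000 * j) =
        2 ^ m * Real.exp (-(9 / 1000 * j)) * Real.exp (9 / 500 * j) := by
      rw [mul_assoc, ← Real.exp_add]
      congr 2
      ring
    rw [h2] at h1
    have h3 := le_of_mul_le_mul_right h1 (Real.exp_pos _)
    refine h3.trans (mul_le_mul_of_nonneg_left ?_ h2m.le)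
    apply Real.exp_le_exp.2
    linarith
  -- second part
  have hc2 : (#S2 : ℝ) ≤ 2 ^ m * Real.exp (-(j : ℝ) / 125) := by
    have h1 : (#S2 : ℝ) * (3 / 2 * Real.exp (-(33 / 400))) ^ j ≤
        2 ^ m * (1 + Real.exp (-(3 / 8)) / 2) ^ j := by
      calc (#S2 : ℝ) * (3 / 2 * Real.exp (-(33 / 400))) ^ j
          = ∑ _z ∈ S2, (3 / 2 * Real.exp (-(33 / 400))) ^ j := by
            rw [Finset.sum_const, nsmul_eq_mul]
        _ ≤ ∑ z ∈ S2, ∏ i, (1 + Real.cos (Y z i * (Real.sqrt m)⁻¹) / 2) := by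
            refine Finset.sum_le_sum fun z hz => ?_
            obtain ⟨hz1, hz2⟩ := (Finset.mem_filter.1 hz).2
            have h2 : ∏ i : Fin j, (3 / 2 * Real.exp (-(11 / 20 *
                (1 - Real.cos (Y z i * (Real.sqrt m)⁻¹))))) ≤
                ∏ i, (1 + Real.cos (Y z i * (Real.sqrt m)⁻¹) / 2) :=
              Finset.prod_le_prod (fun i _ => by positivity) fun i _ => factor_low _
            refine le_trans ?_ h2
            rw [Finset.prod_mul_distrib, Finset.prod_const, Finset.card_univ, Fintype.card_fin,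
              ← Real.exp_sum, mul_pow, ← Real.exp_nat_mul]
            refine mul_le_mul_of_nonneg_left ?_ (by positivity)
            apply Real.exp_le_exp.2
            rw [Finset.sum_neg_distrib, ← Finset.mul_sum]
            have h3 : ∑ i, (1 - Real.cos (Y z i * (Real.sqrt m)⁻¹)) ≤ 3 / 20 * j := by
              calc ∑ i, (1 - Real.cos (Y z i * (Real.sqrt m)⁻¹)) ≤
                  ∑ i, Y z i * (Real.sqrt m)⁻¹ :=
                    Finset.sum_le_sum fun i _ => one_sub_cos_le _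
                      (mul_nonneg (hz1 i) (by positivity))
                _ = (∑ i, Y z i) * (Real.sqrt m)⁻¹ := by rw [Finset.sum_mul]
                _ ≤ (3 / 20 * j * Real.sqrt m) * (Real.sqrt m)⁻¹ := by gcongr
                _ = 3 / 20 * j := by
                    rw [mul_assoc, mul_inv_cancel₀ hs0.ne', mul_one]
            linarith
        _ ≤ ∑ z, ∏ i, (1 + Real.cos (Y z i * (Real.sqrt m)⁻¹) / 2) := by
            refine Finset.sum_le_sum_of_subset_of_nonneg (Finset.subset_univ _)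
              fun z _ _ => Finset.prod_nonneg fun i _ => ?_
            have := Real.neg_one_le_cos (Y z i * (Real.sqrt m)⁻¹)
            linarith
        _ ≤ _ := mean_bound m j w hm hw1 hjm fun c => (hw c).1
    have hb : 0 < 3 / 2 * Real.exp (-(33 / 400)) := by positivity
    have h2 : (1 + Real.exp (-(3 / 8)) / 2) ^ j ≤
        Real.exp (-(j : ℝ) / 125) * (3 / 2 * Real.exp (-(33 / 400))) ^ j := by
      have h3 : Real.exp (-(j : ℝ) / 125) = Real.exp (-(1 / 125)) ^ j := by
        rw [← Real.exp_nat_mul]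
        congr 1
        ring
      rw [h3, ← mul_pow]
      apply pow_le_pow_left₀ (by positivity)
      rw [mul_comm]
      exact base_bound
    have h3 : (#S2 : ℝ) * (3 / 2 * Real.exp (-(33 / 400))) ^ j ≤
        (2 ^ m * Real.exp (-(j : ℝ) / 125)) * (3 / 2 * Real.exp (-(33 / 400))) ^ j := by
      refine h1.trans ?_
      rw [mul_assoc]
      exact mul_le_mul_of_nonneg_left h2 h2m.le
    exact le_of_mul_le_mul_right h3 (by positivity)
  have h4 : (#((univ : Finset (Fin m → Bool)).filter fun z => ∀ i, 0 ≤ Y z i) : ℝ) ≤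
      #S1 + #S2 := by
    exact_mod_cast (Finset.card_le_card hcov).trans (Finset.card_union_le _ _)
  calc (#((univ : Finset (Fin m → Bool)).filter fun z => ∀ i, 0 ≤ Y z i) : ℝ)
      ≤ #S1 + #S2 := h4
    _ ≤ 2 ^ m * Real.exp (-(j : ℝ) / 125) + 2 ^ m * Real.exp (-(j : ℝ) / 125) := add_le_add hc1 hc2
    _ = _ := by ring

end Pool.Agent.T2h52.SR
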