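import Pool.Agent.T2h52.SR.Stm

/-!
MP_28724c_co, SignRankGrowth: the combinatorial recursion.
-/

set_option autoImplicit false

namespace Pool.Agent.T2h52.SR

open Finset

theorem card_lt_of_clique {n k : ℕ} {G : SimpleGraph (Fin n)} (h : G.CliqueFree k)
    {Q : Finset (Fin n)} (hQ : G.IsClique (Q : Set (Fin n))) : #Q < k := by
  by_contra hcon
  rw [not_lt] at hcon
  obtain ⟨t, ht, htc⟩ := Finset.exists_subset_card_eq hcon
  exact h t ⟨hQ.subset (by exact_mod_cast ht), htc⟩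

theorem sum_deg {n : ℕ} (A B : Finset (Fin n)) (S : Finset (Fin n × Fin n)) :
    ∑ x ∈ A, #(B.filter fun y => (x, y) ∈ S) ≤ #S := by
  classical
  calc ∑ x ∈ A, #(B.filter fun y => (x, y) ∈ S) = #((A ×ˢ B).filter fun p => p ∈ S) := by
        rw [Finset.card_filter, Finset.sum_product]
        refine Finset.sum_congr rfl fun x _ => ?_
        rw [Finset.card_filter]
    _ ≤ #S := Finset.card_le_card fun p hp => (Finset.mem_filter.mp hp).2

theorem step {n k : ℕ} (hk : 2 ≤ k) {G : SimpleGraph (Fin n)} (hG : G.CliqueFree k)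
    (hGc : Gᶜ.CliqueFree k) {A B : Finset (Fin n)} (hAB : Disjoint A B) (hA : 0 < #A) (hB : 0 < #B)
    (S : Finset (Fin n × Fin n)) (hS : (#S : ℝ) ≤ 1 / (8 * k) * #A * #B)
    (hadj : ∀ x ∈ A, ∀ y ∈ B, (x, y) ∉ S → G.Adj x y) (m : ℕ) (N : ℝ)
    (IH : ∀ U : Finset (Fin n), N ≤ #U → ∃ Q ⊆ U, ∃ I ⊆ U, G.IsClique (Q : Set (Fin n)) ∧
      Gᶜ.IsClique (I : Set (Fin n)) ∧ m ≤ #Q * #I)
    (hNA : 2 * N ≤ #A) (hNB : 2 * N ≤ #B) :
    ∃ Q ⊆ A ∪ B, ∃ I ⊆ A ∪ B, G.IsClique (Q : Set (Fin n)) ∧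
      Gᶜ.IsClique (I : Set (Fin n)) ∧ 2 * m ≤ #Q * #I := by
  classical
  have hkR : (0 : ℝ) < k := by exact_mod_cast (by omega : 0 < k)
  have hAR : (0 : ℝ) < #A := by exact_mod_cast hA
  have hBR : (0 : ℝ) < #B := by exact_mod_cast hB
  set A' := A.filter fun x => 4 * k * #(B.filter fun y => (x, y) ∈ S) ≤ #B with hA'
  set Bad := A.filter fun x => ¬ (4 * k * #(B.filter fun y => (x, y) ∈ S) ≤ #B) with hBad
  have hcardA : #A' + #Bad = #A := Finset.card_filter_add_card_filter_not _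
  have hbad : #Bad * #B ≤ 4 * k * #S := by
    calc #Bad * #B = ∑ x ∈ Bad, #B := by rw [Finset.sum_const, smul_eq_mul]
      _ ≤ ∑ x ∈ Bad, 4 * k * #(B.filter fun y => (x, y) ∈ S) := by
        refine Finset.sum_le_sum fun x hx => ?_
        exact (not_le.mp (Finset.mem_filter.mp hx).2).le
      _ = 4 * k * ∑ x ∈ Bad, #(B.filter fun y => (x, y) ∈ S) := by rw [Finset.mul_sum]
      _ ≤ 4 * k * #S := Nat.mul_le_mul_left _ (sum_deg _ _ _)
  have hbad' : (#Bad : ℝ) ≤ #A / 2 := by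
    have h1 : (#Bad : ℝ) * #B ≤ 4 * k * #S := by exact_mod_cast hbad
    have h2 : (4 : ℝ) * k * #S ≤ 4 * k * (1 / (8 * k) * #A * #B) := by gcongr
    have h3 : (4 : ℝ) * k * (1 / (8 * k) * #A * #B) = (#A / 2) * #B := by
      field_simp
      norm_num
    rw [h3] at h2
    exact le_of_mul_le_mul_right (h1.trans h2) hBR
  have hA'card : N ≤ #A' := by
    have h1 : (#A' : ℝ) + #Bad = #A := by exact_mod_cast hcardA
    linarith
  obtain ⟨Q₁, hQ₁A, I₁, hI₁A, hQ₁, hI₁, hm₁⟩ := IH A' hA'card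
  have hcQ := card_lt_of_clique hG hQ₁
  have hcI := card_lt_of_clique hGc hI₁
  set B' := B.filter fun y => ∀ x ∈ Q₁ ∪ I₁, (x, y) ∉ S with hB'
  set Bad2 := B.filter fun y => ¬ ∀ x ∈ Q₁ ∪ I₁, (x, y) ∉ S with hBad2
  have hcardB : #B' + #Bad2 = #B := Finset.card_filter_add_card_filter_not _
  have hbad2 : 2 * #Bad2 ≤ #B := by
    have h1 : #Bad2 ≤ ∑ x ∈ Q₁ ∪ I₁, #(B.filter fun y => (x, y) ∈ S) := by
      refine le_trans (Finset.card_le_card ?_) Finset.card_biUnion_le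
      intro y hy
      rw [hBad2, Finset.mem_filter] at hy
      obtain ⟨hyB, hy2⟩ := hy
      push Not at hy2
      obtain ⟨x, hx, hxS⟩ := hy2
      exact Finset.mem_biUnion.mpr ⟨x, hx, Finset.mem_filter.mpr ⟨hyB, hxS⟩⟩
    have h2 : 4 * k * ∑ x ∈ Q₁ ∪ I₁, #(B.filter fun y => (x, y) ∈ S) ≤ (2 * k) * #B := by
      rw [Finset.mul_sum]
      calc _ ≤ ∑ x ∈ Q₁ ∪ I₁, #B := by
            refine Finset.sum_le_sum fun x hx => ?_
            have hxA : x ∈ A' := by
              rcases Finset.mem_union.mp hx with h | h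
              · exact hQ₁A h
              · exact hI₁A h
            exact (Finset.mem_filter.mp hxA).2
        _ = #(Q₁ ∪ I₁) * #B := by rw [Finset.sum_const, smul_eq_mul]
        _ ≤ (2 * k) * #B := by
          refine Nat.mul_le_mul_right _ ((Finset.card_union_le _ _).trans ?_)
          omega
    have h3 : 4 * k * #Bad2 ≤ (2 * k) * #B := (Nat.mul_le_mul_left _ h1).trans h2
    have h4 : (2 * k) * (2 * #Bad2) ≤ (2 * k) * #B := by
      calc (2 * k) * (2 * #Bad2) = 4 * k * #Bad2 := by ring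
        _ ≤ _ := h3
    exact Nat.le_of_mul_le_mul_left h4 (by omega)
  have hB'card : N ≤ #B' := by
    have h1 : (#B' : ℝ) + #Bad2 = #B := by exact_mod_cast hcardB
    have h2 : (2 : ℝ) * #Bad2 ≤ #B := by exact_mod_cast hbad2
    linarith
  obtain ⟨Q₂, hQ₂B, I₂, hI₂B, hQ₂, hI₂, hm₂⟩ := IH B' hB'card
  have hA'A : A' ⊆ A := Finset.filter_subset _ _
  have hB'B : B' ⊆ B := Finset.filter_subset _ _
  have hdisj : Disjoint Q₁ Q₂ :=
    Finset.disjoint_of_subset_left (hQ₁A.trans hA'A)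
      (Finset.disjoint_of_subset_right (hQ₂B.trans hB'B) hAB)
  have hcross : ∀ x ∈ Q₁, ∀ y ∈ Q₂, G.Adj x y := by
    intro x hx y hy
    refine hadj x (hA'A (hQ₁A hx)) y (hB'B (hQ₂B hy)) ?_
    exact (Finset.mem_filter.mp (hQ₂B hy)).2 x (Finset.mem_union_left _ hx)
  have hQ : G.IsClique ((Q₁ ∪ Q₂ : Finset (Fin n)) : Set (Fin n)) := by
    intro x hx y hy hxy
    rw [Finset.mem_coe, Finset.mem_union] at hx hy
    rcases hx with hx | hx <;> rcases hy with hy | hy
    · exact hQ₁ hx hy hxy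
    · exact hcross x hx y hy
    · exact (hcross y hy x hx).symm
    · exact hQ₂ hx hy hxy
  have hQsub : Q₁ ∪ Q₂ ⊆ A ∪ B :=
    Finset.union_subset_union (hQ₁A.trans hA'A) (hQ₂B.trans hB'B)
  have hQcard : #(Q₁ ∪ Q₂) = #Q₁ + #Q₂ := Finset.card_union_of_disjoint hdisj
  rcases le_total (#I₁) (#I₂) with hI | hI
  · refine ⟨Q₁ ∪ Q₂, hQsub, I₂, (hI₂B.trans hB'B).trans Finset.subset_union_right, hQ, hI₂, ?_⟩
    rw [hQcard]
    have := Nat.mul_le_mul_left (#Q₁) hI
    nlinarith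
  · refine ⟨Q₁ ∪ Q₂, hQsub, I₁, (hI₁A.trans hA'A).trans Finset.subset_union_left, hQ, hI₁, ?_⟩
    rw [hQcard]
    have := Nat.mul_le_mul_left (#Q₂) hI
    nlinarith

theorem t_RECUR : T_RECUR := by
  classical
  intro n k N0 κ G hk hN0 hκ0 hκ1 hG hGc H
  have hN0R : (1 : ℝ) ≤ N0 := by exact_mod_cast hN0
  have h8 : (8 : ℝ) ≤ 8 / κ := by
    rw [le_div_iff₀ hκ0]
    nlinarith
  have claim : ∀ (j : ℕ) (U : Finset (Fin n)), 2 * N0 * (8 / κ) ^ j ≤ (#U : ℝ) →
      ∃ Q ⊆ U, ∃ I ⊆ U, G.IsClique (Q : Set (Fin n)) ∧ Gᶜ.IsClique (I : Set (Fin n)) ∧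
        2 ^ j ≤ #Q * #I := by
    intro j
    induction j with
    | zero =>
      intro U hU
      have h1 : (0 : ℝ) < #U := by
        rw [pow_zero, mul_one] at hU
        linarith
      have h2 : 0 < #U := by exact_mod_cast h1
      obtain ⟨v, hv⟩ := Finset.card_pos.mp h2
      refine ⟨{v}, Finset.singleton_subset_iff.mpr hv, {v}, Finset.singleton_subset_iff.mpr hv,
        ?_, ?_, ?_⟩
      · rw [Finset.coe_singleton]
        exact Set.pairwise_singleton _ _
      · rw [Finset.coe_singleton]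
        exact Set.pairwise_singleton _ _
      · simp
    | succ j ih =>
      intro U hU
      have hpow : (1 : ℝ) ≤ (8 / κ) ^ j := one_le_pow₀ (by linarith)
      have hU1 : (16 : ℝ) * N0 * (8 / κ) ^ j ≤ #U := by
        refine le_trans ?_ hU
        rw [pow_succ]
        have : 0 ≤ (N0 : ℝ) * (8 / κ) ^ j := by positivity
        nlinarith
      obtain ⟨X, hXU, hXc⟩ := Finset.exists_subset_card_eq (Nat.div_le_self (#U) 2)
      set Y := U \ X with hY
      have hYc : #Y = #U - #U / 2 := by rw [hY, Finset.card_sdiff_of_subset hXU, hXc]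
      have hXY : Disjoint X Y := Finset.disjoint_sdiff
      have hcU : (16 : ℝ) ≤ #U := by
        have : (1 : ℝ) ≤ N0 * (8 / κ) ^ j := by nlinarith
        nlinarith
      have hcU' : 16 ≤ #U := by exact_mod_cast hcU
      have hX3 : (#U : ℝ) ≤ 3 * #X := by
        have : #U ≤ 3 * #X := by omega
        exact_mod_cast this
      have hY3 : (#U : ℝ) ≤ 3 * #Y := by
        have : #U ≤ 3 * #Y := by omega
        exact_mod_cast this
      have hXN : N0 ≤ #X := by
        have h2 : (N0 : ℝ) ≤ #X := by nlinarith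
        exact_mod_cast h2
      have hYN : N0 ≤ #Y := by
        have h2 : (N0 : ℝ) ≤ #Y := by nlinarith
        exact_mod_cast h2
      obtain ⟨A, hAX, B, hBY, hAc, hBc, hcase⟩ := H X Y hXY hXN hYN
      have hkey : 2 * (2 * N0 * (8 / κ) ^ j) ≤ κ * (#U / 3) := by
        have h2 : κ * (#U / 3) ≥ κ * ((2 * N0 * (8 / κ) ^ (j + 1)) / 3) := by gcongr
        have h3 : κ * ((2 * N0 * (8 / κ) ^ (j + 1)) / 3) = 16 / 3 * (N0 * (8 / κ) ^ j) := by
          rw [pow_succ]
          field_simp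
          norm_num
        rw [h3] at h2
        have : 0 ≤ (N0 : ℝ) * (8 / κ) ^ j := by positivity
        linarith
      have hAN : 2 * (2 * N0 * (8 / κ) ^ j) ≤ #A := by
        refine hkey.trans (le_trans ?_ hAc)
        have : (#U : ℝ) / 3 ≤ #X := by linarith
        gcongr
      have hBN : 2 * (2 * N0 * (8 / κ) ^ j) ≤ #B := by
        refine hkey.trans (le_trans ?_ hBc)
        have : (#U : ℝ) / 3 ≤ #Y := by linarith
        gcongr
      have hpos : (0 : ℝ) < 2 * (2 * N0 * (8 / κ) ^ j) := by positivity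
      have hA0 : 0 < #A := by
        have : (0 : ℝ) < #A := hpos.trans_le hAN
        exact_mod_cast this
      have hB0 : 0 < #B := by
        have : (0 : ℝ) < #B := hpos.trans_le hBN
        exact_mod_cast this
      have hAB : Disjoint A B :=
        Finset.disjoint_of_subset_left hAX (Finset.disjoint_of_subset_right hBY hXY)
      have hABU : A ∪ B ⊆ U :=
        Finset.union_subset (hAX.trans hXU) (hBY.trans Finset.sdiff_subset)
      rcases hcase with ⟨S, hS, hadj⟩ | ⟨S, hS, hadj⟩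
      · obtain ⟨Q, hQ, I, hI, hQc, hIc, hm⟩ := step hk hG hGc hAB hA0 hB0 S hS hadj (2 ^ j)
          (2 * N0 * (8 / κ) ^ j) ih hAN hBN
        exact ⟨Q, hQ.trans hABU, I, hI.trans hABU, hQc, hIc, by rw [pow_succ]; omega⟩
      · have hadj' : ∀ x ∈ A, ∀ y ∈ B, (x, y) ∉ S → Gᶜ.Adj x y := by
          intro x hx y hy hxy
          rw [SimpleGraph.compl_adj]
          refine ⟨?_, hadj x hx y hy hxy⟩
          rintro rfl
          exact (Finset.disjoint_left.mp hAB) hx hy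
        obtain ⟨Q, hQ, I, hI, hQc, hIc, hm⟩ := step (G := Gᶜ) hk hGc (by rwa [compl_compl]) hAB hA0
          hB0 S hS hadj' (2 ^ j) (2 * N0 * (8 / κ) ^ j) (by
            intro U hU
            obtain ⟨Q, hQ, I, hI, hQc, hIc, hm⟩ := ih U hU
            exact ⟨I, hI, Q, hQ, hIc, by rwa [compl_compl], by rwa [mul_comm]⟩) hAN hBN
        rw [compl_compl] at hIc
        exact ⟨I, hI.trans hABU, Q, hQ.trans hABU, hIc, hQc, by
          rw [pow_succ, mul_comm (#I)]; omega⟩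
  by_contra hcon
  rw [not_lt] at hcon
  obtain ⟨Q, -, I, -, hQ, hI, hm⟩ := claim (2 * Nat.clog 2 k) Finset.univ (by simpa using hcon)
  have h1 := card_lt_of_clique hG hQ
  have h2 := card_lt_of_clique hGc hI
  have h3 : k ≤ 2 ^ Nat.clog 2 k := Nat.le_pow_clog (by norm_num) k
  have h4 : k * k ≤ 2 ^ (2 * Nat.clog 2 k) := by
    rw [two_mul, pow_add]
    exact Nat.mul_le_mul h3 h3
  have h5 : #Q * #I < k * k := Nat.mul_lt_mul'' h1 h2
  omega

end Pool.Agent.T2h52.SR
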