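import Pool.Agent.T2h52.SR.Count

set_option autoImplicit false

namespace Pool.Agent.T2h52.SR

open Finset

section

variable {m : ℕ}

/-- the inner product of two sign vectors in odd dimension is not zero -/
lemma sip_ne_zero (hm : Odd m) (x y : Fin m → Bool) : sip x y ≠ 0 := by
  intro h
  have h1 : ∀ b c : Bool, sg b * sg c = 1 - 2 * (if b = c then 0 else 1) := by
    intro b c
    cases b <;> cases c <;> norm_num [sg]
  unfold sip at h
  simp_rw [h1] at h
  rw [Finset.sum_sub_distrib, ← Finset.mul_sum] at h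
  simp only [Finset.sum_const, Finset.card_univ, Fintype.card_fin, nsmul_eq_mul, mul_one] at h
  have h2 : (∑ i, if x i = y i then (0 : ℝ) else 1) =
      (((univ : Finset (Fin m)).filter fun i => ¬ x i = y i).card : ℝ) := by
    rw [← Finset.sum_boole]
    exact Finset.sum_congr rfl fun i _ => by split_ifs <;> rfl
  rw [h2] at h
  have h3 : (m : ℝ) = 2 * (((univ : Finset (Fin m)).filter fun i => ¬ x i = y i).card : ℝ) := by
    linarith
  have h4 : m = 2 * ((univ : Finset (Fin m)).filter fun i => ¬ x i = y i).card := by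
    exact_mod_cast h3
  obtain ⟨a, ha⟩ := hm
  omega

/-- marginals of the uniform distribution -/
lemma sum_comp_inj {n q : ℕ} {V : Type} [Fintype V] [DecidableEq V] (S : Fin q → Fin n)
    (hS : Function.Injective S) (f : (Fin q → V) → ℝ) :
    (∑ Z : Fin n → V, f (Z ∘ S)) * (Fintype.card V : ℝ) ^ q =
      (∑ z, f z) * (Fintype.card V : ℝ) ^ n := by
  classical
  let p : Fin n → Prop := fun i => i ∈ Set.range S
  let e := Equiv.piEquivPiSubtypeProd p (fun _ => V)
  let e' : Fin q ≃ {i // p i} := Equiv.ofInjective S hS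
  have h1 : ∑ Z : Fin n → V, f (Z ∘ S) =
      ∑ w : ({i // p i} → V) × ({i // ¬ p i} → V), f (w.1 ∘ e') := by
    rw [← Equiv.sum_comp e]
    refine Finset.sum_congr rfl fun Z _ => ?_
    congr 1
  rw [h1, Fintype.sum_prod_type]
  simp only [Finset.sum_const, Finset.card_univ, nsmul_eq_mul]
  rw [← Finset.mul_sum]
  have h2 : ∑ w : {i // p i} → V, f (w ∘ e') = ∑ z : Fin q → V, f z := by
    rw [← Equiv.sum_comp (Equiv.arrowCongr e'.symm (Equiv.refl V))]
    rfl
  rw [h2, Fintype.card_fun]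
  have h3 : Fintype.card {i // ¬ p i} + q = n := by
    have h4 := Fintype.card_subtype_compl p
    have h5 : Fintype.card {i // p i} = q := by
      rw [← Fintype.card_congr e', Fintype.card_fin]
    rw [h5, Fintype.card_fin] at h4
    have h6 : q ≤ n := by
      have := Fintype.card_le_of_injective S hS
      simpa using this
    omega
  have h4 : (Fintype.card V : ℝ) ^ n = (Fintype.card V : ℝ) ^ (Fintype.card {i // ¬ p i}) *
      (Fintype.card V : ℝ) ^ q := by
    rw [← pow_add, h3]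
  rw [h4]
  push_cast
  ring

open Classical in
/-- the union bound -/
theorem exists_tuple {n q : ℕ} (B : Finset (Fin q → Fin m → Bool))
    (hB : (n : ℝ) ^ q * #B < 2 ^ (m * q)) :
    ∃ Z : Fin n → Fin m → Bool, ∀ S : Fin q → Fin n, Function.Injective S → Z ∘ S ∉ B := by
  by_contra hcon
  push Not at hcon
  have h1 : ∑ Z : Fin n → Fin m → Bool, (1 : ℝ) ≤
      ∑ Z : Fin n → Fin m → Bool, ∑ S : Fin q → Fin n,
        (if Function.Injective S then (if Z ∘ S ∈ B then (1 : ℝ) else 0) else 0) := by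
    refine Finset.sum_le_sum fun Z _ => ?_
    obtain ⟨S, hS, hS2⟩ := hcon Z
    refine le_trans (le_of_eq ?_) (Finset.single_le_sum (f := fun S : Fin q → Fin n =>
      (if Function.Injective S then (if Z ∘ S ∈ B then (1 : ℝ) else 0) else 0))
      (fun S _ => by split_ifs <;> norm_num) (mem_univ S))
    simp [hS, hS2]
  rw [Finset.sum_comm] at h1
  have h2 : ∀ S : Fin q → Fin n, (∑ Z : Fin n → Fin m → Bool,
      (if Function.Injective S then (if Z ∘ S ∈ B then (1 : ℝ) else 0) else 0)) *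
        ((2 : ℝ) ^ m) ^ q ≤ #B * ((2 : ℝ) ^ m) ^ n := by
    intro S
    by_cases hS : Function.Injective S
    · simp only [if_pos hS]
      have h := sum_comp_inj (V := Fin m → Bool) S hS (fun z => if z ∈ B then (1 : ℝ) else 0)
      simp only [Fintype.card_fun, Fintype.card_bool, Fintype.card_fin, Nat.cast_pow,
        Nat.cast_ofNat] at h
      rw [h]
      simp
    · simp only [if_neg hS, Finset.sum_const_zero, zero_mul]
      positivity
  have h3 : (∑ Z : Fin n → Fin m → Bool, (1 : ℝ)) * ((2 : ℝ) ^ m) ^ q ≤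
      (n : ℝ) ^ q * (#B * ((2 : ℝ) ^ m) ^ n) := by
    refine (mul_le_mul_of_nonneg_right h1 (by positivity)).trans ?_
    rw [Finset.sum_mul]
    refine (Finset.sum_le_sum fun S _ => h2 S).trans (le_of_eq ?_)
    rw [Finset.sum_const, nsmul_eq_mul, Finset.card_univ, Fintype.card_fun, Fintype.card_fin,
      Fintype.card_fin]
    push_cast
    ring
  have h4 : ∑ Z : Fin n → Fin m → Bool, (1 : ℝ) = ((2 : ℝ) ^ m) ^ n := by
    simp
  rw [h4] at h3
  have h5 : (0 : ℝ) < ((2 : ℝ) ^ m) ^ n := by positivity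
  have h6 : ((2 : ℝ) ^ m) ^ q ≤ (n : ℝ) ^ q * #B := by
    by_contra h
    push Not at h
    nlinarith
  rw [← pow_mul] at h6
  linarith

/-- the graph of the positive inner products -/
def sipGraph {n : ℕ} (Z : Fin n → Fin m → Bool) : SimpleGraph (Fin n) where
  Adj x y := x ≠ y ∧ 0 < sip (Z x) (Z y)
  symm := ⟨fun x y h => ⟨h.1.symm, by rw [sip_comm]; exact h.2⟩⟩
  loopless := ⟨fun x h => h.1 rfl⟩

open Classical in
theorem exists_graph (hC : T_COUNT) {n q k : ℕ} (hm : Odd m) (hq : 1 ≤ q) (hqk : q ≤ k)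
    (hqm : 160 * q ^ 2 ≤ m)
    (hn : (n : ℝ) ^ q * (2 * (2 ^ q * Real.exp (-(q * (q - 1) : ℝ) / 250) +
      q * Real.exp ((q : ℝ) ^ 2 / 4 - (m : ℝ) / 160))) < 1) :
    ∃ Z : Fin n → Fin m → Bool, (sipGraph Z).CliqueFree k ∧ (sipGraph Z)ᶜ.CliqueFree k := by
  set B1 : Finset (Fin q → Fin m → Bool) := univ.filter fun z =>
      ∀ i j, i < j → 0 ≤ (1 : ℝ) * ∑ l, sg (z i l) * sg (z j l) with hB1
  set B2 : Finset (Fin q → Fin m → Bool) := univ.filter fun z =>
      ∀ i j, i < j → 0 ≤ (-1 : ℝ) * ∑ l, sg (z i l) * sg (z j l) with hB2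
  have h1 := hC m q 1 (Or.inl rfl) hq hqm
  have h2 := hC m q (-1) (Or.inr rfl) hq hqm
  rw [← hB1] at h1
  rw [← hB2] at h2
  obtain ⟨Z, hZ⟩ := exists_tuple (m := m) (n := n) (B1 ∪ B2) (by
    have h3 : (#(B1 ∪ B2) : ℝ) ≤ #B1 + #B2 := by exact_mod_cast Finset.card_union_le _ _
    have h4 : (0 : ℝ) < 2 ^ (m * q) := by positivity
    calc (n : ℝ) ^ q * #(B1 ∪ B2) ≤ (n : ℝ) ^ q * (#B1 + #B2) := by gcongr
      _ ≤ (n : ℝ) ^ q * (2 ^ (m * q) * (2 ^ q * Real.exp (-(q * (q - 1) : ℝ) / 250) +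
      q * Real.exp ((q : ℝ) ^ 2 / 4 - (m : ℝ) / 160)) + 2 ^ (m * q) * (2 ^ q *
        Real.exp (-(q * (q - 1) : ℝ) / 250) +
      q * Real.exp ((q : ℝ) ^ 2 / 4 - (m : ℝ) / 160))) := by gcongr
      _ = ((n : ℝ) ^ q * (2 * (2 ^ q * Real.exp (-(q * (q - 1) : ℝ) / 250) +
      q * Real.exp ((q : ℝ) ^ 2 / 4 - (m : ℝ) / 160)))) * 2 ^ (m * q) := by ring
      _ < 1 * 2 ^ (m * q) := by gcongr
      _ = _ := one_mul _)
  refine ⟨Z, ?_, ?_⟩
  · rintro s hs
    rw [SimpleGraph.isNClique_iff] at hs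
    obtain ⟨t, hts, htq⟩ := Finset.exists_subset_card_eq (hqk.trans hs.2.ge)
    let S : Fin q → Fin n := t.orderEmbOfFin htq
    refine hZ S (t.orderEmbOfFin htq).injective ?_
    rw [mem_union]
    left
    rw [hB1, mem_filter]
    refine ⟨mem_univ _, fun i j hij => ?_⟩
    have h5 := hs.1 (hts (Finset.orderEmbOfFin_mem t htq i)) (hts (Finset.orderEmbOfFin_mem t htq j))
      (by
        intro h
        exact hij.ne ((t.orderEmbOfFin htq).injective h))
    rw [one_mul]
    exact h5.2.le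
  · rintro s hs
    rw [SimpleGraph.isNClique_iff] at hs
    obtain ⟨t, hts, htq⟩ := Finset.exists_subset_card_eq (hqk.trans hs.2.ge)
    let S : Fin q → Fin n := t.orderEmbOfFin htq
    refine hZ S (t.orderEmbOfFin htq).injective ?_
    rw [mem_union]
    right
    rw [hB2, mem_filter]
    refine ⟨mem_univ _, fun i j hij => ?_⟩
    have hne : S i ≠ S j := by
      intro h
      exact hij.ne ((t.orderEmbOfFin htq).injective h)
    have h5 := hs.1 (hts (Finset.orderEmbOfFin_mem t htq i)) (hts (Finset.orderEmbOfFin_mem t htq j))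
      hne
    rw [SimpleGraph.compl_adj] at h5
    have h6 : ¬ 0 < sip (Z (S i)) (Z (S j)) := fun h => h5.2 ⟨hne, h⟩
    push Not at h6
    have : (-1 : ℝ) * sip (Z (S i)) (Z (S j)) ≥ 0 := by linarith
    exact this

theorem numeric {q : ℕ} (hq : 1100 ≤ q) {n : ℕ} (hn : (n : ℝ) ≤ Real.exp (q / 300)) (hm : 160 * q ^ 2 ≤ m) :
    (n : ℝ) ^ q * (2 * (2 ^ q * Real.exp (-(q * (q - 1) : ℝ) / 250) +
      q * Real.exp ((q : ℝ) ^ 2 / 4 - (m : ℝ) / 160))) < 1 := by
  have hq' : (1100 : ℝ) ≤ q := by exact_mod_cast hq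
  have hm' : (160 : ℝ) * q ^ 2 ≤ m := by exact_mod_cast hm
  have h2 : (2 : ℝ) ≤ Real.exp (0.694) := by
    have := Real.log_two_lt_d9
    rw [← Real.log_le_iff_le_exp (by norm_num)]
    linarith
  have h1 : (n : ℝ) ^ q ≤ Real.exp ((q : ℝ) ^ 2 / 300) := by
    calc (n : ℝ) ^ q ≤ Real.exp (q / 300) ^ q := by gcongr
      _ = _ := by rw [← Real.exp_nat_mul]; congr 1; ring
  have h3 : (2 : ℝ) ^ q ≤ Real.exp (0.694 * q) := by
    calc (2 : ℝ) ^ q ≤ Real.exp 0.694 ^ q := by gcongr
      _ = _ := by rw [← Real.exp_nat_mul]; congr 1; ring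
  have h4 : (q : ℝ) ≤ Real.exp q := by
    have := Real.add_one_le_exp (q : ℝ)
    linarith
  have e1 : Real.exp ((q : ℝ) ^ 2 / 300) * (Real.exp (0.694 * q) * Real.exp (-(q * (q - 1) : ℝ) / 250)) ≤
      Real.exp (-2) := by
    rw [← Real.exp_add, ← Real.exp_add, Real.exp_le_exp]
    nlinarith
  have e2 : Real.exp ((q : ℝ) ^ 2 / 300) * (Real.exp q * Real.exp ((q : ℝ) ^ 2 / 4 - (m : ℝ) / 160)) ≤
      Real.exp (-2) := by
    rw [← Real.exp_add, ← Real.exp_add, Real.exp_le_exp]
    nlinarith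
  have e3 : Real.exp (-2) < 1 / 4 := by
    have h5 := Real.exp_one_gt_d9
    have h6 : Real.exp (-2) = (Real.exp 1 * Real.exp 1)⁻¹ := by
      rw [← Real.exp_add, ← Real.exp_neg]; norm_num
    rw [h6, inv_lt_comm₀ (by positivity) (by norm_num)]
    nlinarith
  calc _ ≤ Real.exp ((q : ℝ) ^ 2 / 300) * (2 * (Real.exp (0.694 * q) *
        Real.exp (-(q * (q - 1) : ℝ) / 250) +
      Real.exp q * Real.exp ((q : ℝ) ^ 2 / 4 - (m : ℝ) / 160))) := by gcongr
    _ = 2 * (Real.exp ((q : ℝ) ^ 2 / 300) * (Real.exp (0.694 * q) *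
        Real.exp (-(q * (q - 1) : ℝ) / 250))) + 2 * (Real.exp ((q : ℝ) ^ 2 / 300) *
      (Real.exp q * Real.exp ((q : ℝ) ^ 2 / 4 - (m : ℝ) / 160))) := by ring
    _ ≤ 2 * Real.exp (-2) + 2 * Real.exp (-2) := by gcongr
    _ < 1 := by linarith

theorem lower_of (hC : T_COUNT) : T_LOWER := by
  refine ⟨1 / 10 ^ 5, by norm_num, ?_⟩
  intro k r hk hr hrk
  by_cases hbig : r < 2 * 10 ^ 8
  · -- two adjacent vertices
    refine ⟨2, ⊤, fun _ _ => 1, ?_, ?_, ?_, ?_, ?_⟩
    · intro s hs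
      have h1 := hs.card_eq
      have h2 : s.card ≤ 2 := by simpa using Finset.card_le_univ s
      omega
    · intro s hs
      have h1 := hs.card_eq
      have h2 : s.card ≤ 2 := by simpa using Finset.card_le_univ s
      omega
    · intro x i
      exact Or.inl rfl
    · intro x y hxy
      refine ⟨fun _ => ?_, fun h => absurd hxy (by simpa using h)⟩
      simp
      omega
    · have h1 := Real.log_two_gt_d9
      have h2 : Real.sqrt r ≤ 20000 := by
        rw [Real.sqrt_le_left (by norm_num)]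
        have : (r : ℝ) < 2 * 10 ^ 8 := by exact_mod_cast hbig
        linarith
      push_cast
      linarith
  · push Not at hbig
    -- an odd `m` with `r - 1 ≤ m ≤ r`
    obtain ⟨m, d, hmodd, hrm, hd⟩ : ∃ m d : ℕ, Odd m ∧ r = m + d ∧ d ≤ 1 := by
      rcases Nat.even_or_odd r with h | h
      · obtain ⟨a, ha⟩ := h
        exact ⟨r - 1, 1, ⟨a - 1, by omega⟩, by omega, le_rfl⟩
      · exact ⟨r, 0, h, rfl, by norm_num⟩
    subst hrm
    set q := Nat.sqrt (m / 160) with hq
    have hq1 : q ^ 2 ≤ m / 160 := Nat.sqrt_le' _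
    have hq2 : m / 160 < (q + 1) ^ 2 := Nat.lt_succ_sqrt' _
    have hqm : 160 * q ^ 2 ≤ m := by omega
    have hq3 : m < 160 * (q + 1) ^ 2 := by omega
    have hq0 : 1100 ≤ q := by
      by_contra h
      push Not at h
      have : (q + 1) ^ 2 ≤ 1100 ^ 2 := Nat.pow_le_pow_left (by omega) 2
      omega
    have hqk : q ≤ k := by
      by_contra h
      push Not at h
      have : k ^ 2 ≤ q ^ 2 := Nat.pow_le_pow_left h.le 2
      nlinarith
    set n := ⌊Real.exp ((q : ℝ) / 300)⌋₊ with hn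
    have hn1 : (n : ℝ) ≤ Real.exp (q / 300) := Nat.floor_le (Real.exp_pos _).le
    obtain ⟨Z, hZ1, hZ2⟩ := exists_graph hC (n := n) hmodd (by omega) hqk hqm (numeric hq0 hn1 hqm)
    refine ⟨n, sipGraph Z, fun x => Fin.addCases (fun i => sg (Z x i)) (fun _ => 0), hZ1, hZ2,
      ?_, ?_, ?_⟩
    · intro x i
      refine Fin.addCases (fun i => ?_) (fun i => ?_) i
      · beta_reduce
        rw [Fin.addCases_left]
        cases Z x i <;> simp [sg]
      · beta_reduce
        rw [Fin.addCases_right]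
        simp
    · intro x y hxy
      have hs : ∑ i : Fin (m + d), (Fin.addCases (motive := fun _ => ℝ) (fun i => sg (Z x i)) (fun _ => 0) i) *
          (Fin.addCases (motive := fun _ => ℝ) (fun i => sg (Z y i)) (fun _ => 0) i) = sip (Z x) (Z y) := by
        rw [Fin.sum_univ_add]
        simp [sip]
      rw [hs]
      refine ⟨fun h => h.2, fun h => ?_⟩
      have h1 : ¬ 0 < sip (Z x) (Z y) := fun h2 => h ⟨hxy, h2⟩
      push Not at h1
      exact lt_of_le_of_ne h1 (sip_ne_zero hmodd _ _)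
    · have hq' : (1100 : ℝ) ≤ q := by exact_mod_cast hq0
      have h1 : Real.exp ((q : ℝ) / 600) ≤ n := by
        have h2 : Real.exp ((q : ℝ) / 300) < n + 1 := Nat.lt_floor_add_one _
        have h3 : Real.exp ((q : ℝ) / 300) = Real.exp ((q : ℝ) / 600) * Real.exp ((q : ℝ) / 600) := by
          rw [← Real.exp_add]; congr 1; ring
        have h4 : 2 ≤ Real.exp ((q : ℝ) / 600) := by
          have := Real.add_one_le_exp ((q : ℝ) / 600)
          linarith
        nlinarith
      have h2 : (q : ℝ) / 600 ≤ Real.log n := by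
        rw [Real.le_log_iff_exp_le]
        · exact h1
        · exact lt_of_lt_of_le (Real.exp_pos _) h1
      have h3 : Real.sqrt ((m + d : ℕ) : ℝ) ≤ 13 * (q + 2) := by
        rw [Real.sqrt_le_left (by positivity)]
        have h4 : ((m + d : ℕ) : ℝ) ≤ 160 * ((q : ℝ) + 1) ^ 2 + 1 := by
          have : m + d ≤ 160 * (q + 1) ^ 2 + 1 := by omega
          exact_mod_cast this
        nlinarith
      refine le_trans ?_ h2
      have : (1 : ℝ) / 10 ^ 5 * (13 * (q + 2)) ≤ q / 600 := by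
        linarith
      refine le_trans ?_ this
      gcongr

end

end Pool.Agent.T2h52.SR
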