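import Pool.Agent.T2h52.SR.Upper
import Pool.Agent.T2h52.SR.Lower

set_option autoImplicit false

namespace Pool.Agent.T2h52.SR

open Finset Filter Topology

/-- The colouring with colour classes `G` and `Gᶜ` has no monochromatic `K_k`. -/
def NoMono {n : ℕ} (G : SimpleGraph (Fin n)) (k : ℕ) : Prop :=
  G.CliqueFree k ∧ Gᶜ.CliqueFree k

/-- The colouring `G` has sign-rank at most `r`: there is a real matrix `(a x ⬝ b y)` of rank at most
`r` whose entry at `(x, y)`, `x ≠ y`, is positive if the pair `x, y` is red (an edge of `G`) and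
negative if it is blue. Nothing is assumed about the diagonal. -/
def SignRankLE {n : ℕ} (G : SimpleGraph (Fin n)) (r : ℕ) : Prop :=
  ∃ a b : Fin n → Fin r → ℝ, ∀ x y, x ≠ y →
    (G.Adj x y → 0 < ∑ i, a x i * b y i) ∧ (¬ G.Adj x y → ∑ i, a x i * b y i < 0)

/-- `G` is given by the signs of the inner products of vectors in `{-1, 0, 1}^r`; none of these
inner products is zero. -/
def SignVectors {n : ℕ} (G : SimpleGraph (Fin n)) (r : ℕ) : Prop :=
  ∃ z : Fin n → Fin r → ℤ, (∀ x i, z x i = 1 ∨ z x i = -1 ∨ z x i = 0) ∧ ∀ x y, x ≠ y →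
    (G.Adj x y → 0 < ∑ i, z x i * z y i) ∧ (¬ G.Adj x y → ∑ i, z x i * z y i < 0)

/-- The diagonal Ramsey number `R(k,k)`. -/
noncomputable def ramsey (k : ℕ) : ℕ := sInf {n : ℕ | ∀ G : SimpleGraph (Fin n), ¬ NoMono G k}

/-- The largest number of vertices of a colouring without monochromatic `K_k` of sign-rank at most
`r`. -/
noncomputable def srOrder (k r : ℕ) : ℕ :=
  sSup {n : ℕ | ∃ G : SimpleGraph (Fin n), NoMono G k ∧ SignRankLE G r}

theorem SignVectors.signRankLE {n : ℕ} {G : SimpleGraph (Fin n)} {r : ℕ} (h : SignVectors G r) :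
    SignRankLE G r := by
  obtain ⟨z, _, h⟩ := h
  refine ⟨fun x i => z x i, fun x i => z x i, fun x y hxy => ?_⟩
  obtain ⟨h1, h2⟩ := h x y hxy
  beta_reduce
  constructor
  · intro ha
    exact_mod_cast h1 ha
  · intro ha
    exact_mod_cast h2 ha

/-- upper bound -/
theorem upper (hU : T_UPPER) : ∃ C : ℝ, 0 < C ∧ ∀ (n k r : ℕ) (G : SimpleGraph (Fin n)), 2 ≤ k →
    1 ≤ r → NoMono G k → SignRankLE G r → Real.log n ≤ C * (Real.sqrt r * Real.log k ^ 2) := by
  obtain ⟨C, hC, h⟩ := hU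
  refine ⟨C, hC, fun n k r G hk hr hG hs => ?_⟩
  obtain ⟨a, b, hab⟩ := hs
  exact h n k r G a b hk hr hG.1 hG.2 hab

/-- lower bound -/
theorem lower (hL : T_LOWER) : ∃ c : ℝ, 0 < c ∧ ∀ k r : ℕ, 3 ≤ k → 1 ≤ r → r ≤ k ^ 2 →
    ∃ (n : ℕ) (G : SimpleGraph (Fin n)), NoMono G k ∧ SignVectors G r ∧
      c * Real.sqrt r ≤ Real.log n := by
  obtain ⟨c, hc, h⟩ := hL
  refine ⟨c, hc, fun k r hk hr hrk => ?_⟩
  obtain ⟨n, G, z, h1, h2, h3, h4, h5⟩ := h k r hk hr hrk
  have hz : ∀ x i, ∃ w : ℤ, (w : ℝ) = z x i ∧ (w = 1 ∨ w = -1 ∨ w = 0) := by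
    intro x i
    rcases h3 x i with h | h | h
    · exact ⟨1, by rw [h]; norm_num, Or.inl rfl⟩
    · exact ⟨-1, by rw [h]; norm_num, Or.inr (Or.inl rfl)⟩
    · exact ⟨0, by rw [h]; norm_num, Or.inr (Or.inr rfl)⟩
  choose w hw1 hw2 using hz
  refine ⟨n, G, ⟨h1, h2⟩, ⟨w, hw2, fun x y hxy => ?_⟩, h5⟩
  have e : ((∑ i, w x i * w y i : ℤ) : ℝ) = ∑ i, z x i * z y i := by
    push_cast
    exact Finset.sum_congr rfl fun i _ => by rw [hw1, hw1]
  obtain ⟨g1, g2⟩ := h4 x y hxy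
  constructor
  · intro ha
    have := g1 ha
    rw [← e] at this
    exact_mod_cast this
  · intro ha
    have := g2 ha
    rw [← e] at this
    exact_mod_cast this

theorem mem_zero (k r : ℕ) (hk : 1 ≤ k) :
    0 ∈ {n : ℕ | ∃ G : SimpleGraph (Fin n), NoMono G k ∧ SignRankLE G r} := by
  refine ⟨⊥, ⟨?_, ?_⟩, fun x => x.elim0, fun x => x.elim0, fun x => x.elim0⟩
  · intro s hs
    have h1 := hs.card_eq
    have h2 : s.card ≤ 0 := by simpa using Finset.card_le_univ s
    omega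
  · intro s hs
    have h1 := hs.card_eq
    have h2 : s.card ≤ 0 := by simpa using Finset.card_le_univ s
    omega

theorem bdd (hU : T_UPPER) (k r : ℕ) (hk : 2 ≤ k) (hr : 1 ≤ r) :
    BddAbove {n : ℕ | ∃ G : SimpleGraph (Fin n), NoMono G k ∧ SignRankLE G r} := by
  obtain ⟨C, hC, h⟩ := upper hU
  refine ⟨⌈Real.exp (C * (Real.sqrt r * Real.log k ^ 2))⌉₊, ?_⟩
  rintro n ⟨G, hG, hs⟩
  have h1 := h n k r G hk hr hG hs
  rcases Nat.eq_zero_or_pos n with h0 | h0
  · omega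
  · have h2 : (0 : ℝ) < n := by exact_mod_cast h0
    rw [Real.log_le_iff_le_exp h2] at h1
    exact_mod_cast h1.trans (Nat.le_ceil _)

theorem srOrder_mem (hU : T_UPPER) (k r : ℕ) (hk : 2 ≤ k) (hr : 1 ≤ r) :
    ∃ G : SimpleGraph (Fin (srOrder k r)), NoMono G k ∧ SignRankLE G r :=
  Nat.sSup_mem ⟨0, mem_zero k r (by omega)⟩ (bdd hU k r hk hr)

theorem le_srOrder (hU : T_UPPER) {n k r : ℕ} (hk : 2 ≤ k) (hr : 1 ≤ r) (G : SimpleGraph (Fin n))
    (hG : NoMono G k) (hs : SignRankLE G r) : n ≤ srOrder k r :=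
  le_csSup (bdd hU k r hk hr) ⟨G, hG, hs⟩

/-- the order of magnitude of `log log` -/
theorem exponent (hU : T_UPPER) (hL : T_LOWER) (θ : ℝ) (hθ : 0 < θ) (hθ2 : θ ≤ 2) :
    Tendsto (fun k : ℕ => Real.log (Real.log (srOrder k ⌊(k : ℝ) ^ θ⌋₊)) / Real.log k) atTop
      (𝓝 (θ / 2)) := by
  obtain ⟨C, hC, hup⟩ := upper hU
  obtain ⟨c, hc, hlow⟩ := lower hL
  have hlog : Tendsto (fun k : ℕ => Real.log (k : ℝ)) atTop atTop :=
    Real.tendsto_log_atTop.comp tendsto_natCast_atTop_atTop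
  have hinv : Tendsto (fun k : ℕ => (Real.log (k : ℝ))⁻¹) atTop (𝓝 0) := hlog.inv_tendsto_atTop
  have hll : Tendsto (fun k : ℕ => Real.log (Real.log k) / Real.log k) atTop (𝓝 0) := by
    have h1 : Tendsto (fun x : ℝ => Real.log x / x) atTop (𝓝 0) :=
      Real.isLittleO_log_id_atTop.tendsto_div_nhds_zero
    exact h1.comp hlog
  have hbase : ∀ᶠ k : ℕ in atTop, 3 ≤ k ∧ 1 ≤ Real.log (k : ℝ) ∧ 1 ≤ (k : ℝ) ^ θ := by
    filter_upwards [eventually_ge_atTop 3, hlog.eventually_ge_atTop 1] with k h1 h2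
    refine ⟨h1, h2, ?_⟩
    exact Real.one_le_rpow (by exact_mod_cast (by omega : 1 ≤ k)) hθ.le
  have main : ∀ᶠ k : ℕ in atTop,
      (Real.log c - Real.log 2 / 2) * (Real.log k)⁻¹ + θ / 2 ≤
        Real.log (Real.log (srOrder k ⌊(k : ℝ) ^ θ⌋₊)) / Real.log k ∧
      Real.log (Real.log (srOrder k ⌊(k : ℝ) ^ θ⌋₊)) / Real.log k ≤
        Real.log C * (Real.log k)⁻¹ + θ / 2 + 2 * (Real.log (Real.log k) / Real.log k) := by
    filter_upwards [hbase] with k hk
    obtain ⟨hk3, hlk, hkθ⟩ := hk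
    have hk0 : (0 : ℝ) < k := by exact_mod_cast (by omega : 0 < k)
    have hk1 : (1 : ℝ) ≤ k := by exact_mod_cast (by omega : 1 ≤ k)
    set r := ⌊(k : ℝ) ^ θ⌋₊ with hr
    have hr1 : 1 ≤ r := Nat.le_floor (by simpa using hkθ)
    have hr1' : (1 : ℝ) ≤ r := by exact_mod_cast hr1
    have hrle : (r : ℝ) ≤ (k : ℝ) ^ θ := Nat.floor_le (by positivity)
    have hrge : (k : ℝ) ^ θ / 2 ≤ r := by
      have := Nat.lt_floor_add_one ((k : ℝ) ^ θ)
      rw [← hr] at this
      linarith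
    have hrk : r ≤ k ^ 2 := by
      have h1 : (r : ℝ) ≤ (k : ℝ) ^ (2 : ℝ) := hrle.trans (Real.rpow_le_rpow_of_exponent_le hk1 hθ2)
      rw [Real.rpow_two] at h1
      exact_mod_cast h1
    obtain ⟨n, G, hG, hs, hn⟩ := hlow k r hk3 hr1 hrk
    have hns : n ≤ srOrder k r := le_srOrder hU (by omega) hr1 G hG hs.signRankLE
    obtain ⟨G', hG', hs'⟩ := srOrder_mem hU k r (by omega) hr1
    have h2 := hup _ k r G' (by omega) hr1 hG' hs'
    have hsq : 0 < Real.sqrt r := Real.sqrt_pos.2 (by linarith)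
    have hnpos : (0 : ℝ) < n := by
      rcases Nat.eq_zero_or_pos n with h0 | h0
      · subst h0
        simp at hn
        nlinarith
      · exact_mod_cast h0
    have h3 : c * Real.sqrt r ≤ Real.log (srOrder k r) :=
      hn.trans (Real.log_le_log hnpos (by exact_mod_cast hns))
    have h4 : 0 < Real.log (srOrder k r) := lt_of_lt_of_le (by positivity) h3
    have hlogr1 : θ * Real.log k - Real.log 2 ≤ Real.log r := by
      rw [← Real.log_rpow hk0, ← Real.log_div (by positivity) (by norm_num)]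
      exact Real.log_le_log (by positivity) hrge
    have hlogr2 : Real.log r ≤ θ * Real.log k := by
      rw [← Real.log_rpow hk0]
      exact Real.log_le_log (by positivity) hrle
    have h5 : Real.log c + Real.log r / 2 ≤ Real.log (Real.log (srOrder k r)) := by
      rw [← Real.log_sqrt (by positivity), ← Real.log_mul hc.ne' hsq.ne']
      exact Real.log_le_log (by positivity) h3
    have h6 : Real.log (Real.log (srOrder k r)) ≤
        Real.log C + (Real.log r / 2 + 2 * Real.log (Real.log k)) := by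
      have h7 : Real.log (C * (Real.sqrt r * Real.log k ^ 2)) =
          Real.log C + (Real.log r / 2 + 2 * Real.log (Real.log k)) := by
        rw [Real.log_mul hC.ne' (by positivity), Real.log_mul hsq.ne' (by positivity),
          Real.log_sqrt (by positivity), Real.log_pow]
        norm_num
      rw [← h7]
      exact Real.log_le_log h4 h2
    have hlk0 : 0 < Real.log k := by linarith
    constructor
    · rw [le_div_iff₀ hlk0, add_mul, mul_assoc, inv_mul_cancel₀ hlk0.ne', mul_one]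
      linarith
    · rw [div_le_iff₀ hlk0]
      have e : (Real.log C * (Real.log k)⁻¹ + θ / 2 + 2 * (Real.log (Real.log k) / Real.log k)) *
          Real.log k = Real.log C + θ / 2 * Real.log k + 2 * Real.log (Real.log k) := by
        field_simp
      rw [e]
      linarith
  refine tendsto_of_tendsto_of_tendsto_of_le_of_le' (g := fun k : ℕ =>
      (Real.log c - Real.log 2 / 2) * (Real.log k)⁻¹ + θ / 2) (h := fun k : ℕ =>
        Real.log C * (Real.log k)⁻¹ + θ / 2 + 2 * (Real.log (Real.log k) / Real.log k))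
    ?_ ?_ (main.mono fun k h => h.1) (main.mono fun k h => h.2)
  · have := (hinv.const_mul (Real.log c - Real.log 2 / 2)).add_const (θ / 2)
    simpa using this
  · have := ((hinv.const_mul (Real.log C)).add_const (θ / 2)).add (hll.const_mul 2)
    simpa using this

/-- all colourings with exponentially many vertices have a large sign-rank -/
theorem large_rank (hU : T_UPPER) : ∃ c : ℝ, 0 < c ∧ ∀ (n k r : ℕ) (G : SimpleGraph (Fin n)) (θ : ℝ),
    2 ≤ k → 0 < θ → NoMono G k → Real.exp (θ * k) ≤ n → SignRankLE G r →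
      c * θ ^ 2 * (k : ℝ) ^ 2 / Real.log k ^ 4 ≤ r := by
  obtain ⟨C, hC, h⟩ := upper hU
  refine ⟨1 / C ^ 2, by positivity, fun n k r G θ hk hθ hG hn hs => ?_⟩
  have hk' : (2 : ℝ) ≤ k := by exact_mod_cast hk
  have hlk : 0 < Real.log k := Real.log_pos (by linarith)
  have hn0 : (0 : ℝ) < n := lt_of_lt_of_le (Real.exp_pos _) hn
  have h1 : θ * k ≤ Real.log n := by
    rw [Real.le_log_iff_exp_le hn0]; exact hn
  have hr : 1 ≤ r := by
    by_contra hr
    have hr0 : r = 0 := by omega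
    subst hr0
    obtain ⟨a, b, hab⟩ := hs
    have h2 : 1 < Real.exp (θ * k) := by
      rw [Real.one_lt_exp_iff]; positivity
    have h3 : 1 < n := by exact_mod_cast h2.trans_le hn
    have h4 := hab ⟨0, by omega⟩ ⟨1, h3⟩ (by simp)
    by_cases ha : G.Adj ⟨0, by omega⟩ ⟨1, h3⟩
    · have := h4.1 ha
      simp at this
    · have := h4.2 ha
      simp at this
  have h2 := h1.trans (h n k r G hk hr hG hs)
  have h3 : (θ * k) ^ 2 ≤ (C * (Real.sqrt r * Real.log k ^ 2)) ^ 2 := by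
    gcongr
  rw [mul_pow C, mul_pow (Real.sqrt r), Real.sq_sqrt (Nat.cast_nonneg r)] at h3
  rw [div_le_iff₀ (by positivity), div_mul_eq_mul_div, div_mul_eq_mul_div,
    div_le_iff₀ (by positivity)]
  nlinarith

theorem zero_growth (hU : T_UPPER) : ∀ ε : ℝ, 0 < ε → ∃ δ : ℝ, 0 < δ ∧ ∀ (n k r : ℕ)
    (G : SimpleGraph (Fin n)), 2 ≤ k → NoMono G k → SignRankLE G r →
    (r : ℝ) ≤ δ * k ^ 2 / Real.log k ^ 4 → Real.log n ≤ ε * k := by
  intro ε hε
  obtain ⟨c, hc, h⟩ := large_rank hU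
  refine ⟨c * ε ^ 2 / 2, by positivity, fun n k r G hk hG hs hr => ?_⟩
  by_contra hcon
  push Not at hcon
  have hk' : (2 : ℝ) ≤ k := by exact_mod_cast hk
  have hlk : 0 < Real.log k := Real.log_pos (by linarith)
  have hn0 : (0 : ℝ) < n := by
    rcases Nat.eq_zero_or_pos n with h0 | h0
    · subst h0
      simp at hcon
      nlinarith
    · exact_mod_cast h0
  have h1 := h n k r G ε hk hε hG (by
    rw [← Real.le_log_iff_exp_le hn0]; exact hcon.le) hs
  have h2 : c * ε ^ 2 / 2 * (k : ℝ) ^ 2 / Real.log k ^ 4 < c * ε ^ 2 * k ^ 2 / Real.log k ^ 4 := by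
    gcongr
    have : 0 < c * ε ^ 2 := by positivity
    linarith
  linarith

theorem positive_growth (hL : T_LOWER) : ∃ c : ℝ, 0 < c ∧ ∀ ε : ℝ, 0 < ε → ε ≤ 1 → ∀ k : ℕ, 3 ≤ k →
    1 ≤ ε * k ^ 2 → ∃ (n : ℕ) (G : SimpleGraph (Fin n)), NoMono G k ∧
      SignVectors G ⌊ε * k ^ 2⌋₊ ∧ c * Real.sqrt ε * k ≤ Real.log n := by
  obtain ⟨c, hc, h⟩ := lower hL
  refine ⟨c / 2, by positivity, fun ε hε hε1 k hk hεk => ?_⟩
  set r := ⌊ε * k ^ 2⌋₊ with hr
  have hr1 : 1 ≤ r := Nat.le_floor (by simpa using hεk)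
  have hk0 : (0 : ℝ) < k := by exact_mod_cast (by omega : 0 < k)
  have hrle : (r : ℝ) ≤ ε * k ^ 2 := Nat.floor_le (by positivity)
  have hrk : r ≤ k ^ 2 := by
    have h1 : (r : ℝ) ≤ (k : ℝ) ^ 2 := by nlinarith [sq_nonneg (k : ℝ)]
    exact_mod_cast h1
  obtain ⟨n, G, h1, h2, h3⟩ := h k r hk hr1 hrk
  refine ⟨n, G, h1, h2, le_trans ?_ h3⟩
  have h4 : ε * k ^ 2 / 4 ≤ r := by
    have h5 := Nat.lt_floor_add_one (ε * (k : ℝ) ^ 2)
    rw [← hr] at h5
    have h6 : (1 : ℝ) ≤ r := by exact_mod_cast hr1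
    linarith
  have h5 : Real.sqrt ε * k / 2 ≤ Real.sqrt r := by
    rw [Real.le_sqrt' (by positivity)]
    have : (Real.sqrt ε * k / 2) ^ 2 = ε * k ^ 2 / 4 := by
      rw [div_pow, mul_pow, Real.sq_sqrt hε.le]; norm_num
    rw [this]
    exact h4
  calc c / 2 * Real.sqrt ε * k = c * (Real.sqrt ε * k / 2) := by ring
    _ ≤ _ := by gcongr

/-- every colouring of `n` vertices has sign-rank at most `n` -/
theorem all_signRank {n : ℕ} (G : SimpleGraph (Fin n)) : SignRankLE G n := by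
  classical
  refine ⟨fun x i => if x = i then 1 else 0, fun y i => if G.Adj i y then 1 else -1,
    fun x y hxy => ?_⟩
  have e : ∑ i, (if x = i then (1 : ℝ) else 0) * (if G.Adj i y then 1 else -1) =
      if G.Adj x y then 1 else -1 := by
    rw [Finset.sum_eq_single x]
    · simp
    · intro i _ hi
      rw [if_neg (Ne.symm hi), zero_mul]
    · intro h
      exact absurd (mem_univ x) h
  beta_reduce
  rw [e]
  constructor
  · intro h
    rw [if_pos h]; norm_num
  · intro h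
    rw [if_neg h]; norm_num

theorem le_of_ramsey {n n0 k : ℕ} (hn : n + 1 = ramsey k) (G : SimpleGraph (Fin n0))
    (hG : NoMono G k) : n0 ≤ n := by
  have hne : {n : ℕ | ∀ G : SimpleGraph (Fin n), ¬ NoMono G k}.Nonempty := by
    by_contra h
    rw [Set.not_nonempty_iff_eq_empty] at h
    unfold ramsey at hn
    rw [h, Nat.sInf_empty] at hn
    omega
  have hmem : ramsey k ∈ {n : ℕ | ∀ G : SimpleGraph (Fin n), ¬ NoMono G k} := Nat.sInf_mem hne
  rw [← hn] at hmem
  by_contra hcon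
  push Not at hcon
  have hle : n + 1 ≤ n0 := hcon
  let e1 : G.comap (Fin.castLE hle) ↪g G := SimpleGraph.Embedding.comap (Fin.castLEEmb hle) G
  let e2 : (G.comap (Fin.castLE hle))ᶜ ↪g Gᶜ := ⟨Fin.castLEEmb hle, by
    intro a b
    simp [SimpleGraph.compl_adj]⟩
  exact hmem (G.comap (Fin.castLE hle)) ⟨SimpleGraph.CliqueFree.comap ⟨e1.toCopy⟩ hG.1,
    SimpleGraph.CliqueFree.comap ⟨e2.toCopy⟩ hG.2⟩

/-- the extremal colourings -/
theorem extremal_rank (hU : T_UPPER) (hL : T_LOWER) : ∃ c : ℝ, 0 < c ∧ ∀ (n k r : ℕ)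
    (G : SimpleGraph (Fin n)), 3 ≤ k → n + 1 = ramsey k → NoMono G k → SignRankLE G r →
      c * (k : ℝ) ^ 2 / Real.log k ^ 4 ≤ r := by
  obtain ⟨c, hc, h⟩ := large_rank hU
  obtain ⟨c1, hc1, h1⟩ := positive_growth hL
  refine ⟨c * c1 ^ 2, by positivity, fun n k r G hk hn hG hs => ?_⟩
  have hk' : (3 : ℝ) ≤ k := by exact_mod_cast hk
  obtain ⟨n0, G0, hG0, -, hlog⟩ := h1 1 one_pos le_rfl k hk (by nlinarith)
  have hle := le_of_ramsey hn G0 hG0
  rw [Real.sqrt_one, mul_one] at hlog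
  have hn0 : (0 : ℝ) < n0 := by
    rcases Nat.eq_zero_or_pos n0 with h0 | h0
    · subst h0
      simp at hlog
      nlinarith
    · exact_mod_cast h0
  have h2 : Real.exp (c1 * k) ≤ n := by
    rw [Real.le_log_iff_exp_le hn0] at hlog
    exact hlog.trans (by exact_mod_cast hle)
  exact h n k r G c1 (by omega) hc1 hG h2 hs

end Pool.Agent.T2h52.SR
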