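import Pool.Agent.T2h52.SR.Stm

set_option autoImplicit false

namespace Pool.Agent.T2h52.SR

open Finset

section

variable {m : ℕ}

/-- inner product of two sign vectors -/
noncomputable def sip (x y : Fin m → Bool) : ℝ := ∑ l, sg (x l) * sg (y l)

lemma sg_sq (b : Bool) : sg b * sg b = 1 := by
  cases b <;> simp [sg]

lemma sip_self (x : Fin m → Bool) : sip x x = m := by
  simp [sip, sg_sq]

lemma sip_comm (x y : Fin m → Bool) : sip x y = sip y x := by
  unfold sip
  exact Finset.sum_congr rfl fun l _ => mul_comm _ _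

/-- sum of the squares of the inner products of different members of the tuple -/
noncomputable def fro {j : ℕ} (z : Fin j → Fin m → Bool) : ℝ :=
  ∑ i, ∑ i', if i = i' then 0 else sip (z i) (z i') ^ 2

lemma fro_nonneg {j : ℕ} (z : Fin j → Fin m → Bool) : 0 ≤ fro z := by
  unfold fro
  refine Finset.sum_nonneg fun i _ => Finset.sum_nonneg fun i' _ => ?_
  split_ifs <;> positivity

lemma fro_cons {j : ℕ} (x : Fin m → Bool) (z : Fin j → Fin m → Bool) :
    fro (Fin.cons x z : Fin (j + 1) → Fin m → Bool) = fro z + 2 * ∑ i, sip (z i) x ^ 2 := by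
  unfold fro
  rw [Fin.sum_univ_succ]
  have h1 : ∀ i : Fin j, ∑ i' : Fin (j + 1), (if i.succ = i' then (0 : ℝ) else
      sip ((Fin.cons x z : Fin (j + 1) → Fin m → Bool) i.succ)
        ((Fin.cons x z : Fin (j + 1) → Fin m → Bool) i') ^ 2) =
      sip (z i) x ^ 2 + ∑ i', if i = i' then 0 else sip (z i) (z i') ^ 2 := by
    intro i
    rw [Fin.sum_univ_succ]
    simp [Fin.succ_ne_zero]
  simp_rw [h1]
  rw [Finset.sum_add_distrib]
  have h2 : ∑ i' : Fin (j + 1), (if (0 : Fin (j + 1)) = i' then (0 : ℝ) else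
      sip ((Fin.cons x z : Fin (j + 1) → Fin m → Bool) 0)
        ((Fin.cons x z : Fin (j + 1) → Fin m → Bool) i') ^ 2) = ∑ i, sip (z i) x ^ 2 := by
    rw [Fin.sum_univ_succ]
    simp only [if_true, Fin.cons_zero, Fin.cons_succ, zero_add]
    refine Finset.sum_congr rfl fun i _ => ?_
    rw [if_neg (Fin.succ_ne_zero i).symm, sip_comm]
  rw [h2]
  ring

lemma gram {j : ℕ} (z : Fin j → Fin m → Bool) (c : Fin j → ℝ) :
    ∑ l, (∑ i, c i * sg (z i l)) ^ 2 =
      m * ∑ i, c i ^ 2 + ∑ i, ∑ i', if i = i' then 0 else c i * c i' * sip (z i) (z i') := by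
  have h1 : ∑ l, (∑ i, c i * sg (z i l)) ^ 2 = ∑ i, ∑ i', c i * c i' * sip (z i) (z i') := by
    simp_rw [sq, Finset.sum_mul_sum]
    rw [Finset.sum_comm]
    refine Finset.sum_congr rfl fun i _ => ?_
    rw [Finset.sum_comm]
    refine Finset.sum_congr rfl fun i' _ => ?_
    unfold sip
    rw [Finset.mul_sum]
    refine Finset.sum_congr rfl fun l _ => ?_
    ring
  rw [h1, Finset.mul_sum, ← Finset.sum_add_distrib]
  refine Finset.sum_congr rfl fun i _ => ?_
  rw [← Finset.add_sum_erase _ _ (mem_univ i), ← Finset.add_sum_erase (a := i) univ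
    (fun i' => if i = i' then (0 : ℝ) else c i * c i' * sip (z i) (z i')) (mem_univ i)]
  rw [if_pos rfl, sip_self]
  have : ∑ x ∈ univ.erase i, c i * c x * sip (z i) (z x) =
      ∑ x ∈ univ.erase i, if i = x then (0 : ℝ) else c i * c x * sip (z i) (z x) := by
    refine Finset.sum_congr rfl fun x hx => ?_
    rw [if_neg (Finset.ne_of_mem_erase hx).symm]
  rw [this]
  ring

lemma gram_bound {j : ℕ} (z : Fin j → Fin m → Bool) (hz : fro z ≤ (m : ℝ) ^ 2 / 16)
    (c : Fin j → ℝ) :
    |∑ l, (∑ i, c i * sg (z i l)) ^ 2 - m * ∑ i, c i ^ 2| ≤ 1 / 4 * m * ∑ i, c i ^ 2 := by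
  rw [gram]
  have e1 : m * ∑ i, c i ^ 2 + (∑ i, ∑ i', if i = i' then 0 else c i * c i' * sip (z i) (z i'))
      - m * ∑ i, c i ^ 2 = ∑ p : Fin j × Fin j, (c p.1 * c p.2) *
        (if p.1 = p.2 then 0 else sip (z p.1) (z p.2)) := by
    rw [Fintype.sum_prod_type]
    have : (∑ i, ∑ i', if i = i' then (0:ℝ) else c i * c i' * sip (z i) (z i')) =
        ∑ x, ∑ y, c x * c y * (if x = y then 0 else sip (z x) (z y)) := by
      refine Finset.sum_congr rfl fun i _ => Finset.sum_congr rfl fun i' _ => ?_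
      split_ifs <;> simp
    rw [this]
    ring
  rw [e1]
  have h1 := Finset.sum_mul_sq_le_sq_mul_sq (univ : Finset (Fin j × Fin j))
    (fun p => c p.1 * c p.2) (fun p => if p.1 = p.2 then 0 else sip (z p.1) (z p.2))
  have e2 : ∑ p : Fin j × Fin j, (c p.1 * c p.2) ^ 2 = (∑ i, c i ^ 2) ^ 2 := by
    rw [Fintype.sum_prod_type, sq (∑ i, c i ^ 2), Finset.sum_mul_sum]
    refine Finset.sum_congr rfl fun i _ => Finset.sum_congr rfl fun i' _ => ?_
    ring
  have e3 : ∑ p : Fin j × Fin j, (if p.1 = p.2 then 0 else sip (z p.1) (z p.2)) ^ 2 = fro z := by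
    rw [Fintype.sum_prod_type]
    unfold fro
    refine Finset.sum_congr rfl fun i _ => Finset.sum_congr rfl fun i' _ => ?_
    split_ifs <;> simp
  rw [e2, e3] at h1
  have hc : 0 ≤ ∑ i, c i ^ 2 := Finset.sum_nonneg fun i _ => sq_nonneg _
  refine abs_le_of_sq_le_sq ?_ (by positivity)
  calc _ ≤ (∑ i, c i ^ 2) ^ 2 * fro z := h1
    _ ≤ (∑ i, c i ^ 2) ^ 2 * ((m : ℝ) ^ 2 / 16) := by gcongr
    _ = _ := by ring

/-- sums over tuples, first member separately -/
lemma sum_cons {j : ℕ} (F : (Fin (j + 1) → Fin m → Bool) → ℝ) :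
    ∑ z, F z = ∑ z : Fin j → Fin m → Bool, ∑ x : Fin m → Bool, F (Fin.cons x z) := by
  rw [← Equiv.sum_comp (Fin.consEquiv (fun _ : Fin (j + 1) => Fin m → Bool)) F,
    Fintype.sum_prod_type, Finset.sum_comm]
  rfl

open Classical in
/-- number of the good tuples -/
theorem good_count (hO : T_ORTH) (s : ℝ) (hs : s = 1 ∨ s = -1) (j : ℕ) (hj : j ^ 2 ≤ m) :
    ∑ z : Fin j → Fin m → Bool, (if fro z ≤ (m : ℝ) ^ 2 / 16 ∧
        ∀ i i', i < i' → 0 ≤ s * sip (z i) (z i') then (1 : ℝ) else 0) ≤
      2 ^ (m * j) * (2 ^ j * Real.exp (-(j * (j - 1) : ℝ) / 250)) := by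
  induction j with
  | zero =>
    have : (0 : ℝ) ≤ (m : ℝ) ^ 2 / 16 := by positivity
    simp [fro, this]
  | succ j ih =>
    have hj' : j ^ 2 ≤ m := le_trans (Nat.pow_le_pow_left (Nat.le_succ j) 2) hj
    have ih' := ih hj'
    rw [sum_cons]
    have key : ∀ z : Fin j → Fin m → Bool, ∑ x : Fin m → Bool, (if fro (Fin.cons x z :
        Fin (j + 1) → Fin m → Bool) ≤ (m : ℝ) ^ 2 / 16 ∧ ∀ i i', i < i' →
          0 ≤ s * sip ((Fin.cons x z : Fin (j + 1) → Fin m → Bool) i)
            ((Fin.cons x z : Fin (j + 1) → Fin m → Bool) i') then (1 : ℝ) else 0) ≤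
        (if fro z ≤ (m : ℝ) ^ 2 / 16 ∧ ∀ i i', i < i' → 0 ≤ s * sip (z i) (z i') then (1 : ℝ)
          else 0) * (2 ^ m * (2 * Real.exp (-(j : ℝ) / 125))) := by
      intro z
      by_cases hz : fro z ≤ (m : ℝ) ^ 2 / 16 ∧ ∀ i i', i < i' → 0 ≤ s * sip (z i) (z i')
      · rw [if_pos hz, one_mul]
        have hss : s * s = 1 := by rcases hs with h | h <;> rw [h] <;> norm_num
        have hO1 := hO m j (fun i l => s * sg (z i l)) (by
          intro i l
          rw [abs_mul]
          rcases hs with h | h <;> cases hh : z i l <;> simp [h, sg]) hj' (by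
          intro c
          have h1 := gram_bound z hz.1 c
          have e : ∑ l, (∑ i, c i * (s * sg (z i l))) ^ 2 = ∑ l, (∑ i, c i * sg (z i l)) ^ 2 := by
            refine Finset.sum_congr rfl fun l _ => ?_
            have : ∑ i, c i * (s * sg (z i l)) = s * ∑ i, c i * sg (z i l) := by
              rw [Finset.mul_sum]
              exact Finset.sum_congr rfl fun i _ => by ring
            rw [this, mul_pow, sq s, hss, one_mul]
          rw [e]
          rw [abs_le] at h1
          constructor <;> linarith [h1.1, h1.2])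
        refine le_trans ?_ hO1
        rw [← Finset.sum_boole]
        refine Finset.sum_le_sum fun x _ => ?_
        by_cases hx : ∀ i, 0 ≤ ∑ l, s * sg (z i l) * sg (x l)
        · rw [if_pos hx]
          split_ifs <;> norm_num
        · rw [if_neg hx, if_neg]
          rintro ⟨_, h⟩
          apply hx
          intro i
          have := h 0 i.succ (Fin.succ_pos i)
          rw [Fin.cons_zero, Fin.cons_succ, sip_comm] at this
          unfold sip at this
          rw [Finset.mul_sum] at this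
          refine this.trans (le_of_eq ?_)
          exact Finset.sum_congr rfl fun l _ => by ring
      · rw [if_neg hz, zero_mul]
        refine le_of_eq (Finset.sum_eq_zero fun x _ => ?_)
        rw [if_neg]
        rintro ⟨h1, h2⟩
        apply hz
        constructor
        · rw [fro_cons] at h1
          have : 0 ≤ ∑ i, sip (z i) x ^ 2 := Finset.sum_nonneg fun i _ => sq_nonneg _
          linarith
        · intro i i' hii
          have := h2 i.succ i'.succ (Fin.succ_lt_succ_iff.2 hii)
          simpa using this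
    refine (Finset.sum_le_sum fun z _ => key z).trans ?_
    rw [← Finset.sum_mul]
    refine (mul_le_mul_of_nonneg_right ih' (by positivity)).trans (le_of_eq ?_)
    have e1 : Real.exp (-(((j + 1 : ℕ) : ℝ) * (((j + 1 : ℕ) : ℝ) - 1)) / 250) =
        Real.exp (-(j * (j - 1) : ℝ) / 250) * Real.exp (-(j : ℝ) / 125) := by
      rw [← Real.exp_add]
      congr 1
      push_cast
      ring
    rw [e1, Nat.mul_succ, pow_add, pow_succ 2 j]
    ring

/-- exponential moments -/
theorem psi_bound (hG : T_GRAM) (hm : 1 ≤ m) (j : ℕ) :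
    ∑ z : Fin j → Fin m → Bool, (if fro z ≤ (m : ℝ) ^ 2 / 16 then
        Real.exp (1 / (10 * m) * fro z) else 0) ≤
      2 ^ (m * j) * Real.exp ((j : ℝ) * (j - 1) / 4) := by
  induction j with
  | zero =>
    have : (0 : ℝ) ≤ (m : ℝ) ^ 2 / 16 := by positivity
    simp [fro, this]
  | succ j ih =>
    rw [sum_cons]
    have key : ∀ z : Fin j → Fin m → Bool, ∑ x : Fin m → Bool, (if fro (Fin.cons x z :
        Fin (j + 1) → Fin m → Bool) ≤ (m : ℝ) ^ 2 / 16 then
          Real.exp (1 / (10 * m) * fro (Fin.cons x z : Fin (j + 1) → Fin m → Bool)) else 0) ≤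
        (if fro z ≤ (m : ℝ) ^ 2 / 16 then Real.exp (1 / (10 * m) * fro z) else 0) *
          (2 ^ m * Real.sqrt 2 ^ j) := by
      intro z
      by_cases hz : fro z ≤ (m : ℝ) ^ 2 / 16
      · rw [if_pos hz]
        have hG1 := hG m j (fun i l => sg (z i l)) hm (by
          intro c
          have h1 := gram_bound z hz c
          rw [abs_le] at h1
          linarith [h1.2])
        refine le_trans ?_ (mul_le_mul_of_nonneg_left hG1 (Real.exp_pos _).le)
        rw [Finset.mul_sum]
        refine Finset.sum_le_sum fun x _ => ?_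
        have e : Real.exp (1 / (10 * m) * fro (Fin.cons x z : Fin (j + 1) → Fin m → Bool)) =
            Real.exp (1 / (10 * m) * fro z) *
              Real.exp (1 / (5 * m) * ∑ i, (∑ l, sg (z i l) * sg (x l)) ^ 2) := by
          rw [← Real.exp_add, fro_cons]
          congr 1
          unfold sip
          have : (m : ℝ) ≠ 0 := by positivity
          field_simp
          ring
        rw [← e]
        split_ifs
        · exact le_rfl
        · exact (Real.exp_pos _).le
      · rw [if_neg hz, zero_mul]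
        refine le_of_eq (Finset.sum_eq_zero fun x _ => ?_)
        rw [if_neg]
        intro h1
        apply hz
        rw [fro_cons] at h1
        have : 0 ≤ ∑ i, sip (z i) x ^ 2 := Finset.sum_nonneg fun i _ => sq_nonneg _
        linarith
    refine (Finset.sum_le_sum fun z _ => key z).trans ?_
    rw [← Finset.sum_mul]
    refine (mul_le_mul_of_nonneg_right ih (by positivity)).trans ?_
    have e2 : Real.sqrt 2 ^ j ≤ Real.exp ((j : ℝ) / 2) := by
      have h1 : Real.sqrt 2 ≤ Real.exp (1 / 2) := by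
        rw [Real.sqrt_le_left (Real.exp_pos _).le, ← Real.exp_nat_mul]
        norm_num
        have := Real.add_one_le_exp (1 : ℝ)
        linarith
      calc Real.sqrt 2 ^ j ≤ Real.exp (1 / 2) ^ j := by gcongr
        _ = Real.exp ((j : ℝ) / 2) := by
          rw [← Real.exp_nat_mul]
          congr 1
          ring
    have e1 : Real.exp (((j + 1 : ℕ) : ℝ) * (((j + 1 : ℕ) : ℝ) - 1) / 4) =
        Real.exp ((j : ℝ) * (j - 1) / 4) * Real.exp ((j : ℝ) / 2) := by
      rw [← Real.exp_add]
      congr 1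
      push_cast
      ring
    rw [e1, Nat.mul_succ, pow_add]
    calc 2 ^ (m * j) * Real.exp ((j : ℝ) * (j - 1) / 4) * (2 ^ m * Real.sqrt 2 ^ j)
        ≤ 2 ^ (m * j) * Real.exp ((j : ℝ) * (j - 1) / 4) * (2 ^ m * Real.exp ((j : ℝ) / 2)) := by
          gcongr
      _ = _ := by ring

/-- number of the bad tuples -/
theorem bad_count (hG : T_GRAM) (hm : 1 ≤ m) (k j : ℕ) (hjk : j ≤ k) :
    ∑ z : Fin j → Fin m → Bool, (if fro z ≤ (m : ℝ) ^ 2 / 16 then (0 : ℝ) else 1) ≤
      2 ^ (m * j) * (j * Real.exp ((k : ℝ) ^ 2 / 4 - (m : ℝ) / 160)) := by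
  induction j with
  | zero =>
    have : (0 : ℝ) ≤ (m : ℝ) ^ 2 / 16 := by positivity
    simp [fro, this]
  | succ j ih =>
    have ih' := ih (by omega)
    rw [sum_cons]
    have hm' : (0 : ℝ) < m := by exact_mod_cast hm
    have key : ∀ z : Fin j → Fin m → Bool, ∑ x : Fin m → Bool, (if fro (Fin.cons x z :
        Fin (j + 1) → Fin m → Bool) ≤ (m : ℝ) ^ 2 / 16 then (0 : ℝ) else 1) ≤
        (if fro z ≤ (m : ℝ) ^ 2 / 16 then (0 : ℝ) else 1) * 2 ^ m +
        (if fro z ≤ (m : ℝ) ^ 2 / 16 then Real.exp (1 / (10 * m) * fro z) else 0) *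
          (2 ^ m * Real.sqrt 2 ^ j) * Real.exp (-(m : ℝ) / 160) := by
      intro z
      by_cases hz : fro z ≤ (m : ℝ) ^ 2 / 16
      · rw [if_pos hz, if_pos hz, zero_mul, zero_add]
        have hG1 := hG m j (fun i l => sg (z i l)) hm (by
          intro c
          have h1 := gram_bound z hz c
          rw [abs_le] at h1
          linarith [h1.2])
        have h2 := mul_le_mul_of_nonneg_right
          (mul_le_mul_of_nonneg_left hG1 (Real.exp_pos (1 / (10 * m) * fro z)).le)
          (Real.exp_pos (-(m : ℝ) / 160)).le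
        refine le_trans ?_ h2
        rw [Finset.mul_sum, Finset.sum_mul]
        refine Finset.sum_le_sum fun x _ => ?_
        have e : Real.exp (1 / (10 * m) * fro (Fin.cons x z : Fin (j + 1) → Fin m → Bool)) =
            Real.exp (1 / (10 * m) * fro z) *
              Real.exp (1 / (5 * m) * ∑ i, (∑ l, sg (z i l) * sg (x l)) ^ 2) := by
          rw [← Real.exp_add, fro_cons]
          congr 1
          unfold sip
          have : (m : ℝ) ≠ 0 := by positivity
          field_simp
          ring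
        rw [← e, ← Real.exp_add]
        split_ifs with h
        · exact (Real.exp_pos _).le
        · push Not at h
          rw [Real.one_le_exp_iff]
          have : (m : ℝ) / 160 = 1 / (10 * m) * ((m : ℝ) ^ 2 / 16) := by
            field_simp
            ring
          have h3 : 1 / (10 * m) * ((m : ℝ) ^ 2 / 16) ≤
              1 / (10 * m) * fro (Fin.cons x z : Fin (j + 1) → Fin m → Bool) := by gcongr
          linarith
      · rw [if_neg hz, if_neg hz, zero_mul, zero_mul, add_zero, one_mul]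
        calc _ ≤ ∑ x : Fin m → Bool, (1 : ℝ) := by
              refine Finset.sum_le_sum fun x _ => ?_
              split_ifs <;> norm_num
          _ = 2 ^ m := by simp
    refine (Finset.sum_le_sum fun z _ => key z).trans ?_
    rw [Finset.sum_add_distrib, ← Finset.sum_mul, ← Finset.sum_mul, ← Finset.sum_mul]
    have hψ := psi_bound hG hm j
    have e2 : Real.sqrt 2 ^ j ≤ Real.exp ((j : ℝ) / 2) := by
      have h1 : Real.sqrt 2 ≤ Real.exp (1 / 2) := by
        rw [Real.sqrt_le_left (Real.exp_pos _).le, ← Real.exp_nat_mul]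
        norm_num
        have := Real.add_one_le_exp (1 : ℝ)
        linarith
      calc Real.sqrt 2 ^ j ≤ Real.exp (1 / 2) ^ j := by gcongr
        _ = Real.exp ((j : ℝ) / 2) := by
          rw [← Real.exp_nat_mul]
          congr 1
          ring
    have e3 : Real.exp ((j : ℝ) * (j - 1) / 4) * Real.exp ((j : ℝ) / 2) * Real.exp (-(m : ℝ) / 160) ≤
        Real.exp ((k : ℝ) ^ 2 / 4 - (m : ℝ) / 160) := by
      rw [← Real.exp_add, ← Real.exp_add, Real.exp_le_exp]
      have h1 : ((j : ℝ) + 1) ≤ k := by exact_mod_cast hjk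
      have h0 : (0 : ℝ) ≤ j := Nat.cast_nonneg j
      nlinarith
    calc _ ≤ 2 ^ (m * j) * (j * Real.exp ((k : ℝ) ^ 2 / 4 - (m : ℝ) / 160)) * 2 ^ m +
          2 ^ (m * j) * Real.exp ((j : ℝ) * (j - 1) / 4) * (2 ^ m * Real.exp ((j : ℝ) / 2)) *
            Real.exp (-(m : ℝ) / 160) := by
          gcongr
      _ = 2 ^ (m * j) * (j * Real.exp ((k : ℝ) ^ 2 / 4 - (m : ℝ) / 160)) * 2 ^ m +
          2 ^ (m * j) * 2 ^ m * (Real.exp ((j : ℝ) * (j - 1) / 4) * Real.exp ((j : ℝ) / 2) *
            Real.exp (-(m : ℝ) / 160)) := by ring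
      _ ≤ 2 ^ (m * j) * (j * Real.exp ((k : ℝ) ^ 2 / 4 - (m : ℝ) / 160)) * 2 ^ m +
          2 ^ (m * j) * 2 ^ m * Real.exp ((k : ℝ) ^ 2 / 4 - (m : ℝ) / 160) := by gcongr
      _ = _ := by
          rw [Nat.mul_succ, pow_add]
          push_cast
          ring

theorem count_of (hO : T_ORTH) (hG : T_GRAM) : T_COUNT := by
  classical
  intro m k s hs hk hm
  have hm1 : 1 ≤ m := by nlinarith
  have hk2 : k ^ 2 ≤ m := by nlinarith
  have h1 := good_count (m := m) hO s hs k hk2
  have h2 := bad_count (m := m) hG hm1 k k le_rfl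
  have e : (#((univ : Finset (Fin k → Fin m → Bool)).filter fun z =>
      ∀ i j, i < j → 0 ≤ s * ∑ l, sg (z i l) * sg (z j l)) : ℝ) ≤
      ∑ z : Fin k → Fin m → Bool, (if fro z ≤ (m : ℝ) ^ 2 / 16 ∧
        ∀ i i', i < i' → 0 ≤ s * sip (z i) (z i') then (1 : ℝ) else 0) +
      ∑ z : Fin k → Fin m → Bool, (if fro z ≤ (m : ℝ) ^ 2 / 16 then (0 : ℝ) else 1) := by
    rw [← Finset.sum_boole, ← Finset.sum_add_distrib]
    refine Finset.sum_le_sum fun z _ => ?_
    by_cases ha : fro z ≤ (m : ℝ) ^ 2 / 16 <;>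
      by_cases hb : ∀ i j, i < j → 0 ≤ s * ∑ l, sg (z i l) * sg (z j l)
    · have hb' : ∀ i i', i < i' → 0 ≤ s * sip (z i) (z i') := hb
      rw [if_pos hb, if_pos ⟨ha, hb'⟩, if_pos ha]; norm_num
    · rw [if_neg hb, if_pos ha]
      split_ifs <;> norm_num
    · rw [if_pos hb, if_neg ha]
      split_ifs <;> norm_num
    · rw [if_neg hb, if_neg ha]
      split_ifs <;> norm_num
  refine e.trans ((add_le_add h1 h2).trans (le_of_eq ?_))
  ring

end

end Pool.Agent.T2h52.SR
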