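import Pool.Agent.T2h52.SR.Stm
import Pool.Agent.H524R2.Forster

set_option autoImplicit false

namespace Pool.Agent.T2h52.SR

open Finset Matrix Pool.Agent.H524R2

section

variable {X Y : Type} [Fintype X] [Fintype Y] {d : ℕ}

/-- Unit vectors in isotropic position, for vectors in general position. -/
theorem iso_general (H : X → Y → ℝ) (hH : ∀ x y, |H x y| = 1) 
    (hX : 0 < Fintype.card X)
    (u : X → Fin d → ℝ) (v : Y → Fin d → ℝ) (hsign : ∀ x y, 0 < H x y * (u x ⬝ᵥ v y))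
    (hY : Nonempty Y)
    (σ : Fin d → Equiv.Perm X)
    (hσ : ∀ w, Matrix.det (Matrix.of fun j => u (σ j w)) ≠ 0) :
    ∃ (U : X → Fin d → ℝ) (V : Y → Fin d → ℝ), (∀ x, U x ⬝ᵥ U x = 1) ∧ (∀ y, V y ⬝ᵥ V y = 1) ∧
      (∀ x y, 0 < H x y * (U x ⬝ᵥ V y)) ∧
      ∀ y, (Fintype.card X : ℝ) / 2 ≤ d * ∑ x, (U x ⬝ᵥ V y) ^ 2 := by
  obtain ⟨y0⟩ := hY
  obtain ⟨x0⟩ := Fintype.card_pos_iff.1 hX
  have hu : ∀ x, u x ≠ 0 := by
    intro x h
    have := hsign x y0
    rw [h, zero_dotProduct, mul_zero] at this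
    exact lt_irrefl _ this
  have hv : ∀ y, v y ≠ 0 := by
    intro y h
    have := hsign x0 y
    rw [h, dotProduct_zero, mul_zero] at this
    exact lt_irrefl _ this
  obtain ⟨A, hA, hiso⟩ := exists_isotropic u hu σ hσ hX (1 / 2) (by norm_num)
  have hnA : ∀ x, 0 < nrm u A x := fun x => dot_self_pos (mulVec_ne_zero hA (hu x))
  let v' : Y → Fin d → ℝ := fun y => (A⁻¹)ᵀ *ᵥ v y
  have hdu : IsUnit A.det := isUnit_iff_ne_zero.2 hA
  have hv'0 : ∀ y, v' y ≠ 0 := by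
    intro y
    refine mulVec_ne_zero ?_ (hv y)
    rw [Matrix.det_transpose]
    exact (Matrix.isUnit_nonsing_inv_det A hdu).ne_zero
  have hdot : ∀ x y, (A *ᵥ u x) ⬝ᵥ v' y = u x ⬝ᵥ v y := by
    intro x y
    show (A *ᵥ u x) ⬝ᵥ ((A⁻¹)ᵀ *ᵥ v y) = _
    rw [Matrix.dotProduct_mulVec, Matrix.vecMul_transpose, Matrix.mulVec_mulVec,
      Matrix.nonsing_inv_mul A hdu, Matrix.one_mulVec]
  let a : X → ℝ := fun x => Real.sqrt (nrm u A x)
  let b : Y → ℝ := fun y => Real.sqrt (v' y ⬝ᵥ v' y)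
  have ha : ∀ x, 0 < a x := fun x => Real.sqrt_pos.2 (hnA x)
  have hb : ∀ y, 0 < b y := fun y => Real.sqrt_pos.2 (dot_self_pos (hv'0 y))
  have ha2 : ∀ x, a x ^ 2 = nrm u A x := fun x => Real.sq_sqrt (hnA x).le
  have hb2 : ∀ y, b y ^ 2 = v' y ⬝ᵥ v' y := fun y => Real.sq_sqrt (dot_self_pos (hv'0 y)).le
  let U : X → Fin d → ℝ := fun x => (a x)⁻¹ • (A *ᵥ u x)
  let V : Y → Fin d → ℝ := fun y => (b y)⁻¹ • v' y
  have hU1 : ∀ x, U x ⬝ᵥ U x = 1 := by
    intro x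
    show ((a x)⁻¹ • (A *ᵥ u x)) ⬝ᵥ ((a x)⁻¹ • (A *ᵥ u x)) = 1
    rw [smul_dotProduct, dotProduct_smul]
    have : (A *ᵥ u x) ⬝ᵥ (A *ᵥ u x) = a x ^ 2 := (ha2 x).symm
    rw [this]
    have := (ha x).ne'
    simp only [smul_eq_mul]
    field_simp
  have hV1 : ∀ y, V y ⬝ᵥ V y = 1 := by
    intro y
    show ((b y)⁻¹ • v' y) ⬝ᵥ ((b y)⁻¹ • v' y) = 1
    rw [smul_dotProduct, dotProduct_smul, ← hb2]
    have := (hb y).ne'
    simp only [smul_eq_mul]
    field_simp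
  have hUV : ∀ x y, U x ⬝ᵥ V y = (a x)⁻¹ * (b y)⁻¹ * (u x ⬝ᵥ v y) := by
    intro x y
    show ((a x)⁻¹ • (A *ᵥ u x)) ⬝ᵥ ((b y)⁻¹ • v' y) = _
    rw [smul_dotProduct, dotProduct_smul, hdot]
    simp only [smul_eq_mul]
    ring
  refine ⟨U, V, hU1, hV1, ?_, ?_⟩
  · intro x y
    rw [hUV]
    have h1 := hsign x y
    have h2 := inv_pos.2 (ha x)
    have h3 := inv_pos.2 (hb y)
    have : H x y * ((a x)⁻¹ * (b y)⁻¹ * (u x ⬝ᵥ v y))
        = (a x)⁻¹ * (b y)⁻¹ * (H x y * (u x ⬝ᵥ v y)) := by ring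
    rw [this]
    positivity
  · intro y
    have h0 := hiso (V y) (hV1 y)
    have h1 : ∑ x, ((A *ᵥ u x) ⬝ᵥ V y) ^ 2 / nrm u A x = ∑ x, (U x ⬝ᵥ V y) ^ 2 := by
      refine Finset.sum_congr rfl fun x _ => ?_
      have h1 : U x ⬝ᵥ V y = (a x)⁻¹ * ((A *ᵥ u x) ⬝ᵥ V y) := by
        show ((a x)⁻¹ • (A *ᵥ u x)) ⬝ᵥ V y = _
        rw [smul_dotProduct, smul_eq_mul]
      rw [h1, mul_pow, inv_pow, ha2]
      ring
    rw [h1] at h0
    linarith

open Polynomial in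
theorem iso_fin {N d : ℕ} (H : Fin N → Y → ℝ)
    (hH : ∀ x y, |H x y| = 1)
    (hN : 0 < N) (hd : d ≤ N)
    (u : Fin N → Fin d → ℝ) (v : Y → Fin d → ℝ) (hsign : ∀ x y, 0 < H x y * (u x ⬝ᵥ v y))
    (hY : Nonempty Y) :
    ∃ (U : Fin N → Fin d → ℝ) (V : Y → Fin d → ℝ), (∀ x, U x ⬝ᵥ U x = 1) ∧
      (∀ y, V y ⬝ᵥ V y = 1) ∧ (∀ x y, 0 < H x y * (U x ⬝ᵥ V y)) ∧
      ∀ y, (N : ℝ) / 2 ≤ d * ∑ x, (U x ⬝ᵥ V y) ^ 2 := by
  have : NeZero N := ⟨hN.ne'⟩
  -- cyclic shifts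
  let σ : Fin d → Equiv.Perm (Fin N) := fun j => Equiv.addRight (Fin.castLE hd j)
  have hσinj : ∀ w, Function.Injective fun j => σ j w := by
    intro w j j' hjj
    simp only [σ, Equiv.coe_addRight] at hjj
    exact Fin.castLE_injective hd (add_left_cancel hjj)
  -- points on the moment curve
  let p : Fin N → Fin d → ℝ := fun x i => ((x : ℕ) : ℝ) ^ (i : ℕ)
  have hp : ∀ w, Matrix.det (Matrix.of fun j => p (σ j w)) ≠ 0 := by
    intro w
    have : (Matrix.of fun j => p (σ j w)) = Matrix.vandermonde fun j => (((σ j w : Fin N) : ℕ) : ℝ) := by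
      ext i j; simp [p, Matrix.vandermonde]
    rw [this, Matrix.det_vandermonde_ne_zero_iff]
    intro j j' hjj
    have h1 : ((σ j w : Fin N) : ℕ) = ((σ j' w : Fin N) : ℕ) := by
      have h2 : (((σ j w : Fin N) : ℕ) : ℝ) = (((σ j' w : Fin N) : ℕ) : ℝ) := hjj
      exact_mod_cast h2
    exact hσinj w (Fin.ext h1)
  -- the determinants are nonzero polynomials in `t`
  let P : Fin N → ℝ[X] := fun w =>
    Matrix.det ((X : ℝ[X]) • (Matrix.of fun j => p (σ j w)).map C + (Matrix.of fun j => u (σ j w)).map C)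
  have hP : ∀ w, P w ≠ 0 := by
    intro w h
    have := Polynomial.coeff_det_X_add_C_card (Matrix.of fun j => p (σ j w))
      (Matrix.of fun j => u (σ j w))
    change (P w).coeff _ = _ at this
    rw [h, Polynomial.coeff_zero] at this
    exact hp w this.symm
  have hPeval : ∀ w t, (P w).eval t = Matrix.det (Matrix.of fun j => (u (σ j w) + t • p (σ j w))) := by
    intro w t
    have := RingHom.map_det (Polynomial.evalRingHom t)
      ((X : ℝ[X]) • (Matrix.of fun j => p (σ j w)).map C + (Matrix.of fun j => u (σ j w)).map C)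
    rw [Polynomial.coe_evalRingHom] at this
    rw [this]
    congr 1
    ext i j
    simp
    ring
  have hev1 : ∀ᶠ t : ℝ in nhdsWithin 0 (Set.Ioi 0), ∀ w, (P w).eval t ≠ 0 := by
    rw [Filter.eventually_all]
    intro w
    have hfin : ((P w).roots.toFinset : Set ℝ).Finite := Finset.finite_toSet _
    have h1 : (((P w).roots.toFinset : Set ℝ) \ {0})ᶜ ∈ nhds (0 : ℝ) := by
      refine (hfin.subset Set.sdiff_subset).isClosed.isOpen_compl.mem_nhds ?_
      simp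
    filter_upwards [nhdsWithin_le_nhds h1, self_mem_nhdsWithin] with t ht ht0 hroot
    refine ht ⟨?_, ne_of_gt ht0⟩
    simp only [Finset.mem_coe, Multiset.mem_toFinset]
    exact (Polynomial.mem_roots (hP w)).2 hroot
  have hev2 : ∀ᶠ t : ℝ in nhdsWithin 0 (Set.Ioi 0),
      ∀ x y, 0 < H x y * ((u x + t • p x) ⬝ᵥ v y) := by
    rw [Filter.eventually_all]
    intro x
    rw [Filter.eventually_all]
    intro y
    have hc : Filter.Tendsto (fun t : ℝ => H x y * ((u x + t • p x) ⬝ᵥ v y)) (nhdsWithin 0 (Set.Ioi 0))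
        (nhds (H x y * ((u x + (0 : ℝ) • p x) ⬝ᵥ v y))) := by
      refine Filter.Tendsto.mono_left ?_ nhdsWithin_le_nhds
      refine Continuous.tendsto ?_ 0
      simp only [add_dotProduct, smul_dotProduct, smul_eq_mul]
      fun_prop
    refine hc.eventually (lt_mem_nhds ?_)
    simpa using hsign x y
  obtain ⟨t, h1, h2⟩ := (hev1.and hev2).exists
  have := iso_general H hH (by simpa using hN) (fun x => u x + t • p x) v h2 hY σ (by
    intro w
    rw [← hPeval]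
    exact h1 w)
  simpa using this

end

/-- Unit vectors in isotropic position with the same signs of the inner products. -/
theorem iso (X Y : Type) [Fintype X] [Fintype Y] [Nonempty Y] (r : ℕ) (a : X → Fin r → ℝ)
    (b : Y → Fin r → ℝ) (s : X → Y → ℝ)
    (hs : ∀ x y, |s x y| = 1) (hr : r ≤ Fintype.card X) (hX : 0 < Fintype.card X)
    (hpos : ∀ x y, 0 < s x y * ∑ i, a x i * b y i) :
    ∃ (u : X → Fin r → ℝ) (v : Y → Fin r → ℝ), (∀ x, ∑ i, u x i ^ 2 = 1) ∧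
      (∀ y, ∑ i, v y i ^ 2 = 1) ∧ (∀ x y, 0 < s x y * ∑ i, u x i * v y i) ∧
      ∀ y, (Fintype.card X : ℝ) / (2 * r) ≤ ∑ x, (∑ i, u x i * v y i) ^ 2 := by
  let e := Fintype.equivFin X
  obtain ⟨U, V, h1, h2, h3, h4⟩ := iso_fin (fun x y => s (e.symm x) y) (fun x y => hs _ _)
    (N := Fintype.card X) hX hr (fun x => a (e.symm x)) b (fun x y => hpos _ _) inferInstance
  refine ⟨fun x => U (e x), V, ?_, ?_, ?_, ?_⟩
  · intro x
    have := h1 (e x)
    simpa [dotProduct, sq] using this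
  · intro y
    have := h2 y
    simpa [dotProduct, sq] using this
  · intro x y
    have := h3 (e x) y
    simpa [dotProduct] using this
  · intro y
    have h := h4 y
    have hsum : ∑ x, (U (e x) ⬝ᵥ V y) ^ 2 = ∑ x, (U x ⬝ᵥ V y) ^ 2 :=
      Equiv.sum_comp e (fun x => (U x ⬝ᵥ V y) ^ 2)
    rcases Nat.eq_zero_or_pos r with h0 | h0
    · subst h0
      simp at h
      have : Fintype.card X = 0 := by
        by_contra hc
        have : (0:ℝ) < Fintype.card X := by exact_mod_cast hX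
        linarith
      omega
    · have hr' : (0:ℝ) < r := by exact_mod_cast h0
      rw [div_le_iff₀ (by positivity)]
      have e1 : ∑ x, (∑ i, U (e x) i * V y i) ^ 2 = ∑ x, (U x ⬝ᵥ V y) ^ 2 := hsum
      rw [e1]
      linarith

end Pool.Agent.T2h52.SR
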