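import Mathlib

/-!
MP_28724c_co, SignRankGrowth: statements of the lemmas.
-/

set_option autoImplicit false

namespace Pool.Agent.T2h52.SR

open Finset

/-- the sign of a Boolean -/
noncomputable def sg (b : Bool) : ℝ := if b then 1 else -1

/-- Unit vectors in isotropic position: there are large sets `A`, `B` such that almost all of the
inner products between them have the same sign.

Proof. Write `M x y = ∑ i, u x i * v y i`, `L = log (16/η)`, `U = (17/5) √r L` (this is `λ²`).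
(a) The mean of `exp (U |M|)` is at least `16/η`: otherwise use `s² ≤ 4 L² + 8 exp s / K`, `K = 16/η`,
    for `s = U |M| ≥ 0` (if `s ≤ 2 log K` clear; else `s² ≤ 8 exp (s/2)` and `exp (s/2) ≥ K`), which
    gives `U²/(2r) ≤ 4 L² + 8`, contradiction as `L ≥ log 16`.
(b) Changing the sign of `v` (the sign `σ`) we may assume that the sum of `exp (U M)` over the pairs with
    `M > 0` is at least `(8/η) |X| |Y|`.
(c) Let `g` be a standard Gaussian vector, `f x = exp (λ ⟨u x, g⟩ - 3 λ²)` if `⟨u x, g⟩ ≤ 3 λ` and `0` else,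
    and `h y` similarly for `v`. Both are in `[0, 1]`. `E f h ≤ exp (U (1 + M) - 6 U)`, and
    `E f h ≥ (1/2) exp (U (1 + M) - 6 U)` (the truncated part is bounded by
    `E exp (λ⟨u+v,g⟩ + λ (⟨u,g⟩ - 3λ)) = exp (U (5/2 + 2 M - 3)) ≤ (1/4) exp (U (1 + M))` as `U ≥ 6`).
(d) So `E [η * ∑_{M>0} f h - ∑_{M<0} f h] ≥ 3 exp (-5U) |X| |Y|`; choose `g`.
(e) A bilinear form in `f, h ∈ [0,1]` is at most its value at some indicator functions of `A`, `B`. Then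
    `η red(A,B) - blue(A,B) ≥ 3 exp (-5U) |X||Y|` gives the three claims. -/
def T_BOOST : Prop := ∀ (X Y : Type) [Fintype X] [Fintype Y] [Nonempty X] [Nonempty Y] (r : ℕ)
    (u : X → Fin r → ℝ) (v : Y → Fin r → ℝ), 1 ≤ r →
  (∀ x, ∑ i, u x i ^ 2 = 1) → (∀ y, ∑ i, v y i ^ 2 = 1) → (∀ x y, ∑ i, u x i * v y i ≠ 0) →
  (∀ y, (Fintype.card X : ℝ) / (2 * r) ≤ ∑ x, (∑ i, u x i * v y i) ^ 2) →
  ∀ η : ℝ, 0 < η → η ≤ 1 → ∃ (A : Finset X) (B : Finset Y) (σ : ℝ), (σ = 1 ∨ σ = -1) ∧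
    Real.exp (-(17 * Real.sqrt r * Real.log (16 / η))) * Fintype.card X ≤ (#A : ℝ) ∧
    Real.exp (-(17 * Real.sqrt r * Real.log (16 / η))) * Fintype.card Y ≤ (#B : ℝ) ∧
    (#((A ×ˢ B).filter fun p => σ * ∑ i, u p.1 i * v p.2 i < 0) : ℝ) ≤ η * #A * #B

/-- If all pairs of large disjoint sets contain a pair of large subsets between which almost all pairs
have the same colour, then there are large homogeneous sets.

Proof. Let `N j = 2 N0 (8/κ)^j`. Claim: a set `U` with at least `N j` elements contains a red clique `Q` and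
a blue clique `I` with `#Q * #I ≥ 2^j` (`j = 0`: a single vertex). Step: halve `U` into `X`, `Y`; take
`A`, `B`, say with few blue pairs. At least half of the `x ∈ A` have at most `|B|/(4k)` blue neighbours in
`B`; apply the claim to them: `Q₁, I₁` (with `< k` elements each); at least half of the elements of `B` are
red neighbours of all of `Q₁ ∪ I₁`; apply the claim: `Q₂, I₂`. Use `Q₁ ∪ Q₂` and the larger of `I₁, I₂`.
For `2^j ≥ k²` this contradicts `#Q, #I ≤ k - 1`. -/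
def T_RECUR : Prop := ∀ (n k N0 : ℕ) (κ : ℝ) (G : SimpleGraph (Fin n)), 2 ≤ k → 1 ≤ N0 →
  0 < κ → κ ≤ 1 → G.CliqueFree k → Gᶜ.CliqueFree k →
  (∀ X Y : Finset (Fin n), Disjoint X Y → N0 ≤ #X → N0 ≤ #Y → ∃ A ⊆ X, ∃ B ⊆ Y,
     κ * #X ≤ (#A : ℝ) ∧ κ * #Y ≤ (#B : ℝ) ∧
     ((∃ S : Finset (Fin n × Fin n), (#S : ℝ) ≤ 1 / (8 * k) * #A * #B ∧
        ∀ x ∈ A, ∀ y ∈ B, (x, y) ∉ S → G.Adj x y) ∨
      (∃ S : Finset (Fin n × Fin n), (#S : ℝ) ≤ 1 / (8 * k) * #A * #B ∧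
        ∀ x ∈ A, ∀ y ∈ B, (x, y) ∉ S → ¬ G.Adj x y))) →
  (n : ℝ) < 2 * N0 * (8 / κ) ^ (2 * Nat.clog 2 k)

/-- Sign vectors that are almost orthogonal: a random sign vector has non-negative inner products with
all of them with probability at most `2 exp (-j/125)`.

Proof. `Y i = ∑ l, w i l z l`, `c' = 0.15`. If all `Y i ≥ 0`, then either `∑ Y i ≥ c' j √m` (probability at
most `exp (-c'² j² m / (2 |∑ w i|²)) ≤ exp (-0.4 c'² j)`), or `∑ (1 - cos (Y i / √m)) ≤ c' j`, and then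
`∏ (1 + cos (Y i / √m) / 2) ≥ (3/2)^j 3^(-c' j/2)` (weighted AM-GM: `1 + cos y / 2 ≥
(3/2)^((1 + cos y)/2) (1/2)^((1 - cos y)/2)`), while the mean over `z` of this product is
`∑_{e ∈ {-1,0,1}^j} ∏ c(e i) ∏_l cos ((∑ e i w i l)/√m)`, `c(0) = 1`, `c(±1) = 1/4`, and
`|∑ e i w i l| / √m ≤ j/√m ≤ 1 ≤ π/2`, `cos t ≤ exp (-t²/2)` there, so that this is at most
`∑_e ∏ c(e i) exp (- (3/8) ∑ e i²) = (1 + exp (-3/8) / 2)^j`. -/
def T_ORTH : Prop := ∀ (m j : ℕ) (w : Fin j → Fin m → ℝ), (∀ i l, |w i l| = 1) → j ^ 2 ≤ m →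
  (∀ c : Fin j → ℝ, 3 / 4 * m * ∑ i, c i ^ 2 ≤ ∑ l, (∑ i, c i * w i l) ^ 2 ∧
    ∑ l, (∑ i, c i * w i l) ^ 2 ≤ 5 / 4 * m * ∑ i, c i ^ 2) →
  (#((univ : Finset (Fin m → Bool)).filter fun z => ∀ i, 0 ≤ ∑ l, w i l * sg (z l)) : ℝ) ≤
    2 ^ m * (2 * Real.exp (-(j : ℝ) / 125))

/-- Proof. `exp (a² / (5m)) = E exp (√(2/(5m)) a g)` for a standard Gaussian `g`; so the sum over `z` is
`E_g ∑_z exp (√(2/(5m)) ∑_l (∑_i g i w i l) z l) ≤ 2^m E_g exp ((1/(5m)) ∑_l (∑_i g i w i l)²) ≤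
2^m E_g exp (|g|²/4) = 2^m (√2)^j`. -/
def T_GRAM : Prop := ∀ (m j : ℕ) (w : Fin j → Fin m → ℝ), 1 ≤ m →
  (∀ c : Fin j → ℝ, ∑ l, (∑ i, c i * w i l) ^ 2 ≤ 5 / 4 * m * ∑ i, c i ^ 2) →
  ∑ z : Fin m → Bool, Real.exp (1 / (5 * m) * ∑ i, (∑ l, w i l * sg (z l)) ^ 2) ≤
    2 ^ m * Real.sqrt 2 ^ j

/-- Count of the `k`-tuples of sign vectors with all inner products of the same sign (from `T_ORTH` and
`T_GRAM`). -/
def T_COUNT : Prop := ∀ (m k : ℕ) (s : ℝ), (s = 1 ∨ s = -1) → 1 ≤ k → 160 * k ^ 2 ≤ m →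
  (#((univ : Finset (Fin k → Fin m → Bool)).filter fun z =>
      ∀ i j, i < j → 0 ≤ s * ∑ l, sg (z i l) * sg (z j l)) : ℝ) ≤
    2 ^ (m * k) * (2 ^ k * Real.exp (-(k * (k - 1) : ℝ) / 250) +
      k * Real.exp ((k : ℝ) ^ 2 / 4 - (m : ℝ) / 160))

/-- Lower bound. -/
def T_LOWER : Prop := ∃ c : ℝ, 0 < c ∧ ∀ k r : ℕ, 3 ≤ k → 1 ≤ r → r ≤ k ^ 2 →
  ∃ (n : ℕ) (G : SimpleGraph (Fin n)) (z : Fin n → Fin r → ℝ), G.CliqueFree k ∧ Gᶜ.CliqueFree k ∧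
    (∀ x i, z x i = 1 ∨ z x i = -1 ∨ z x i = 0) ∧
    (∀ x y, x ≠ y → (G.Adj x y → 0 < ∑ i, z x i * z y i) ∧
      (¬ G.Adj x y → ∑ i, z x i * z y i < 0)) ∧
    c * Real.sqrt r ≤ Real.log n

/-- Upper bound. -/
def T_UPPER : Prop := ∃ C : ℝ, 0 < C ∧ ∀ (n k r : ℕ) (G : SimpleGraph (Fin n)) (a b : Fin n → Fin r → ℝ),
  2 ≤ k → 1 ≤ r → G.CliqueFree k → Gᶜ.CliqueFree k →
  (∀ x y, x ≠ y → (G.Adj x y → 0 < ∑ i, a x i * b y i) ∧ (¬ G.Adj x y → ∑ i, a x i * b y i < 0)) →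
  Real.log n ≤ C * (Real.sqrt r * Real.log k ^ 2)

end Pool.Agent.T2h52.SR
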