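import Pool.Agent.T2h52.SR.Iso

set_option autoImplicit false

namespace Pool.Agent.T2h52.SR

open Finset

open Classical in
/-- almost monochromatic rectangles -/
theorem rect_of (hB : T_BOOST) {n k r : ℕ} (G : SimpleGraph (Fin n)) (a b : Fin n → Fin r → ℝ)
    (hk : 2 ≤ k) (hr : 1 ≤ r)
    (hab : ∀ x y, x ≠ y → (G.Adj x y → 0 < ∑ i, a x i * b y i) ∧
      (¬ G.Adj x y → ∑ i, a x i * b y i < 0))
    (X Y : Finset (Fin n)) (hXY : Disjoint X Y) (hX : r ≤ #X) (hY : r ≤ #Y) :
    ∃ A ⊆ X, ∃ B ⊆ Y,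
     Real.exp (-(17 * Real.sqrt r * Real.log (128 * k))) * #X ≤ (#A : ℝ) ∧
     Real.exp (-(17 * Real.sqrt r * Real.log (128 * k))) * #Y ≤ (#B : ℝ) ∧
     ((∃ S : Finset (Fin n × Fin n), (#S : ℝ) ≤ 1 / (8 * k) * #A * #B ∧
        ∀ x ∈ A, ∀ y ∈ B, (x, y) ∉ S → G.Adj x y) ∨
      (∃ S : Finset (Fin n × Fin n), (#S : ℝ) ≤ 1 / (8 * k) * #A * #B ∧
        ∀ x ∈ A, ∀ y ∈ B, (x, y) ∉ S → ¬ G.Adj x y)) := by
  have hk' : (2 : ℝ) ≤ k := by exact_mod_cast hk
  have hYne : Nonempty {y // y ∈ Y} := by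
    rw [nonempty_subtype]
    exact Finset.card_pos.1 (by omega)
  have hXne : Nonempty {x // x ∈ X} := by
    rw [nonempty_subtype]
    exact Finset.card_pos.1 (by omega)
  have hne : ∀ (x : {x // x ∈ X}) (y : {y // y ∈ Y}), (x : Fin n) ≠ y := by
    rintro ⟨x, hx⟩ ⟨y, hy⟩ h
    simp only at h
    subst h
    exact (Finset.disjoint_left.1 hXY hx) hy
  obtain ⟨u, v, hu, hv, hs, hiso⟩ := iso {x // x ∈ X} {y // y ∈ Y} r (fun x => a x) (fun y => b y)
    (fun x y => if G.Adj x y then 1 else -1)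
    (by intro x y; split_ifs <;> simp) (by simpa using hX) (by simpa using (by omega : 0 < #X))
    (by
      intro x y
      have h := hab x y (hne x y)
      split_ifs with h1
      · simpa using h.1 h1
      · have := h.2 h1
        linarith)
  obtain ⟨A, B, σ, hσ, h1, h2, h3⟩ := hB {x // x ∈ X} {y // y ∈ Y} r u v hr hu hv
    (by
      intro x y h
      have := hs x y
      rw [h, mul_zero] at this
      exact lt_irrefl _ this) hiso (1 / (8 * k)) (by positivity) (by
        rw [div_le_one (by positivity)]; linarith)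
  have e16 : (16 : ℝ) / (1 / (8 * k)) = 128 * k := by
    field_simp
    ring
  rw [e16, Fintype.card_coe] at h1 h2
  refine ⟨A.map (Function.Embedding.subtype _), ?_, B.map (Function.Embedding.subtype _), ?_,
    by simpa using h1, by simpa using h2, ?_⟩
  · intro x hx
    rw [mem_map] at hx
    obtain ⟨z, _, rfl⟩ := hx
    exact z.2
  · intro x hx
    rw [mem_map] at hx
    obtain ⟨z, _, rfl⟩ := hx
    exact z.2
  · set S := (A ×ˢ B).filter (fun p => σ * ∑ i, u p.1 i * v p.2 i < 0) with hS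
    let S' : Finset (Fin n × Fin n) := S.image (fun p => ((p.1 : Fin n), (p.2 : Fin n)))
    have hS' : (#S' : ℝ) ≤ 1 / (8 * k) * #(A.map (Function.Embedding.subtype _)) *
        #(B.map (Function.Embedding.subtype _)) := by
      rw [card_map, card_map]
      refine le_trans ?_ h3
      exact_mod_cast card_image_le
    have key : ∀ x ∈ A.map (Function.Embedding.subtype _), ∀ y ∈ B.map (Function.Embedding.subtype _),
        (x, y) ∉ S' → ∃ (x' : {x // x ∈ X}) (y' : {y // y ∈ Y}), (x' : Fin n) = x ∧ (y' : Fin n) = y ∧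
          0 ≤ σ * ∑ i, u x' i * v y' i := by
      intro x hx y hy hxy
      rw [mem_map] at hx hy
      obtain ⟨x', hx', rfl⟩ := hx
      obtain ⟨y', hy', rfl⟩ := hy
      refine ⟨x', y', rfl, rfl, ?_⟩
      by_contra hcon
      push Not at hcon
      apply hxy
      rw [mem_image]
      exact ⟨(x', y'), by rw [hS, mem_filter]; exact ⟨mem_product.2 ⟨hx', hy'⟩, hcon⟩, rfl⟩
    rcases hσ with hσ | hσ
    · left
      refine ⟨S', hS', fun x hx y hy hxy => ?_⟩
      obtain ⟨x', y', rfl, rfl, h4⟩ := key x hx y hy hxy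
      by_contra hadj
      have := hs x' y'
      simp only [if_neg hadj] at this
      rw [hσ] at h4
      linarith
    · right
      refine ⟨S', hS', fun x hx y hy hxy => ?_⟩
      obtain ⟨x', y', rfl, rfl, h4⟩ := key x hx y hy hxy
      intro hadj
      have := hs x' y'
      simp only [if_pos hadj] at this
      rw [hσ] at h4
      linarith

theorem upper_of (hB : T_BOOST) (hR : T_RECUR) : T_UPPER := by
  refine ⟨1000, by norm_num, ?_⟩
  intro n k r G a b hk hr h1 h2 hab
  have hk' : (2 : ℝ) ≤ k := by exact_mod_cast hk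
  have hr' : (1 : ℝ) ≤ r := by exact_mod_cast hr
  set κ := Real.exp (-(17 * Real.sqrt r * Real.log (128 * k))) with hκ
  have hκ0 : 0 < κ := Real.exp_pos _
  have hlogk : Real.log 2 ≤ Real.log k := Real.log_le_log (by norm_num) hk'
  have hl2 := Real.log_two_gt_d9
  have hl2' := Real.log_two_lt_d9
  have hlk0 : 0 < Real.log k := by linarith
  have h128 : Real.log (128 * k) = 7 * Real.log 2 + Real.log k := by
    rw [Real.log_mul (by norm_num) (by positivity)]
    have : (128 : ℝ) = 2 ^ 7 := by norm_num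
    rw [this, Real.log_pow]
    norm_num
  have hκ1 : κ ≤ 1 := by
    rw [hκ, Real.exp_le_one_iff]
    have : 0 ≤ 17 * Real.sqrt r * Real.log (128 * k) := by
      rw [h128]
      positivity
    linarith
  have h3 := hR n k r κ G hk hr hκ0 hκ1 h1 h2 (fun X Y hXY hX hY =>
    rect_of hB G a b hk hr hab X Y hXY hX hY)
  rcases Nat.eq_zero_or_pos n with hn | hn
  · subst hn
    simp
    positivity
  have hn' : (0 : ℝ) < n := by exact_mod_cast hn
  have h4 := Real.log_le_log hn' h3.le
  have hs1 : 1 ≤ Real.sqrt r := by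
    rw [Real.one_le_sqrt]; exact hr'
  have h5 : Real.log (2 * r * (8 / κ) ^ (2 * Nat.clog 2 k)) =
      Real.log 2 + Real.log r + (2 * Nat.clog 2 k : ℕ) * (3 * Real.log 2 +
        17 * Real.sqrt r * Real.log (128 * k)) := by
    rw [Real.log_mul (by positivity) (by positivity), Real.log_mul (by norm_num) (by positivity),
      Real.log_pow, Real.log_div (by norm_num) hκ0.ne', hκ, Real.log_exp]
    have : (8 : ℝ) = 2 ^ 3 := by norm_num
    rw [this, Real.log_pow]
    push_cast
    ring
  have hclog : (Nat.clog 2 k : ℝ) ≤ 3 * Real.log k := by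
    have h6 : Nat.clog 2 k ≤ Nat.log 2 k + 1 :=
      Nat.clog_le_of_le_pow (Nat.lt_pow_succ_log_self (by norm_num) k).le
    have h7 : (Nat.log 2 k : ℝ) * Real.log 2 ≤ Real.log k := by
      rw [← Real.log_pow]
      refine Real.log_le_log (by positivity) ?_
      exact_mod_cast Nat.pow_log_le_self 2 (by omega)
    have h8 : (Nat.clog 2 k : ℝ) ≤ Nat.log 2 k + 1 := by exact_mod_cast h6
    have h9 : (Nat.log 2 k : ℝ) ≤ 1.4427 * Real.log k := by
      nlinarith
    linarith
  have hlogr : Real.log r ≤ 2 * Real.sqrt r := by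
    have h6 : Real.log r = 2 * Real.log (Real.sqrt r) := by
      rw [Real.log_sqrt (by positivity)]
      ring
    rw [h6]
    have := Real.log_le_sub_one_of_pos (show 0 < Real.sqrt r by positivity)
    linarith
  rw [h5] at h4
  push_cast at h4
  have h6 : 3 * Real.log 2 + 17 * Real.sqrt r * Real.log (128 * k) ≤
      139 * Real.sqrt r * Real.log k := by
    rw [h128]
    have h7 : Real.sqrt r * (7 * Real.log 2 + Real.log k) ≤ Real.sqrt r * (8 * Real.log k) := by
      gcongr; linarith
    have h8 : 3 * Real.log 2 ≤ 3 * (Real.sqrt r * Real.log k) := by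
      nlinarith
    nlinarith
  have h7 : 2 * (Nat.clog 2 k : ℝ) * (3 * Real.log 2 + 17 * Real.sqrt r * Real.log (128 * k)) ≤
      2 * (3 * Real.log k) * (139 * Real.sqrt r * Real.log k) := by
    have h0 : 0 ≤ 3 * Real.log 2 + 17 * Real.sqrt r * Real.log (128 * k) := by
      rw [h128]; positivity
    gcongr
  have h8 : Real.log 2 + Real.log r ≤ 10 * (Real.sqrt r * Real.log k ^ 2) := by
    have h9 : (0.48 : ℝ) ≤ Real.log k ^ 2 := by nlinarith
    have h10 : 0.48 * Real.sqrt r ≤ Real.log k ^ 2 * Real.sqrt r := by gcongr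
    nlinarith
  have h9 : 0 ≤ Real.sqrt r * Real.log k ^ 2 := by positivity
  nlinarith

end Pool.Agent.T2h52.SR
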